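import Pool.Agent.EXD.Defs

/-!
# EXD-Azuma: finite Azuma-Hoeffding inequality, counting form

Exponential moments by induction on the depth (`azuma_mgf`, `cosh x ≤ exp (x^2/2)`), then Markov.
-/

namespace Pool.Agent.EXD

open Pool.Agent.Helper50.FS

private theorem ext_snoc_lt {d : ℕ} (σ : Fin d → ℤˣ) (e : ℤˣ) {l : ℕ} (hl : l < d) :
    ext (Fin.snoc (α := fun _ => ℤˣ) σ e) l = ext σ l := by
  unfold ext
  rw [dif_pos (show l < d + 1 by omega), dif_pos hl]
  have : (⟨l, by omega⟩ : Fin (d + 1)) = Fin.castSucc ⟨l, hl⟩ := rfl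
  rw [this, Fin.snoc_castSucc]

private theorem ext_snoc_last {d : ℕ} (σ : Fin d → ℤˣ) (e : ℤˣ) :
    ext (Fin.snoc (α := fun _ => ℤˣ) σ e) d = e := by
  unfold ext
  rw [dif_pos (show d < d + 1 by omega)]
  have : (⟨d, by omega⟩ : Fin (d + 1)) = Fin.last d := rfl
  rw [this, Fin.snoc_last]

private theorem sum_units (f : ℤˣ → ℝ) : ∑ e : ℤˣ, f e = f 1 + f (-1) := by
  have : (Finset.univ : Finset ℤˣ) = {1, -1} := by decide
  rw [this, Finset.sum_pair (by decide)]

private theorem azuma_mgf (lam : ℝ) (T : ℕ → (ℕ → ℤˣ) → ℝ) (m : ℕ → ℝ) (d : ℕ) :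
    ∀ I : Finset ℕ, (∀ i ∈ I, i < d) →
    (∀ i ∈ I, ∀ r r' : ℕ → ℤˣ, (∀ l < i, r l = r' l) → T i r = T i r') →
    (∀ i ∈ I, ∀ r, |T i r| ≤ m i) →
    ∑ σ : Fin d → ℤˣ, Real.exp (lam * ∑ i ∈ I, sg (ext σ i) * T i (ext σ)) ≤
      2 ^ d * Real.exp (lam ^ 2 / 2 * ∑ i ∈ I, (m i) ^ 2) := by
  classical
  induction d with
  | zero =>
    intro I hI _ _
    have hI0 : I = ∅ := by
      rw [Finset.eq_empty_iff_forall_notMem]
      exact fun i hi => absurd (hI i hi) (Nat.not_lt_zero i)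
    subst hI0
    simp
  | succ d ih =>
    intro I hI hT hm
    have hI' : ∀ i ∈ I.erase d, i < d := fun i hi => by
      have h1 := hI i (Finset.mem_of_mem_erase hi)
      have h2 := Finset.ne_of_mem_erase hi
      omega
    have ih' := ih (I.erase d) hI' (fun i hi => hT i (Finset.mem_of_mem_erase hi))
      (fun i hi => hm i (Finset.mem_of_mem_erase hi))
    have hsum : ∀ (σ : Fin d → ℤˣ) (e : ℤˣ),
        ∑ i ∈ I.erase d, sg (ext (Fin.snoc (α := fun _ => ℤˣ) σ e) i) *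
          T i (ext (Fin.snoc (α := fun _ => ℤˣ) σ e)) =
        ∑ i ∈ I.erase d, sg (ext σ i) * T i (ext σ) := by
      intro σ e
      refine Finset.sum_congr rfl fun i hi => ?_
      rw [ext_snoc_lt σ e (hI' i hi), hT i (Finset.mem_of_mem_erase hi) _ (ext σ)
        (fun l hl => ext_snoc_lt σ e (hl.trans (hI' i hi)))]
    have hre : ∑ σ : Fin (d + 1) → ℤˣ, Real.exp (lam * ∑ i ∈ I, sg (ext σ i) * T i (ext σ)) =
        ∑ σ : Fin d → ℤˣ, ∑ e : ℤˣ, Real.exp (lam * ∑ i ∈ I,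
          sg (ext (Fin.snoc (α := fun _ => ℤˣ) σ e) i) *
            T i (ext (Fin.snoc (α := fun _ => ℤˣ) σ e))) := by
      rw [Finset.sum_comm, ← Fintype.sum_prod_type']
      exact (Fintype.sum_equiv (Fin.snocEquiv (fun _ : Fin (d + 1) => ℤˣ)) _ _ (fun x => rfl)).symm
    rw [hre]
    by_cases hd : d ∈ I
    · have hterm : ∀ σ : Fin d → ℤˣ, ∑ e : ℤˣ, Real.exp (lam * ∑ i ∈ I,
          sg (ext (Fin.snoc (α := fun _ => ℤˣ) σ e) i) *
            T i (ext (Fin.snoc (α := fun _ => ℤˣ) σ e))) ≤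
          Real.exp (lam * ∑ i ∈ I.erase d, sg (ext σ i) * T i (ext σ)) *
            (2 * Real.exp (lam ^ 2 / 2 * (m d) ^ 2)) := by
        intro σ
        have h1 : ∀ e : ℤˣ, Real.exp (lam * ∑ i ∈ I,
            sg (ext (Fin.snoc (α := fun _ => ℤˣ) σ e) i) *
              T i (ext (Fin.snoc (α := fun _ => ℤˣ) σ e))) =
            Real.exp (lam * ∑ i ∈ I.erase d, sg (ext σ i) * T i (ext σ)) *
              Real.exp (lam * (sg e * T d (ext σ))) := by
          intro e
          rw [← Finset.add_sum_erase _ _ hd, hsum, ext_snoc_last, hT d hd _ (ext σ)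
            (fun l hl => ext_snoc_lt σ e hl), ← Real.exp_add]
          congr 1
          ring
        simp only [h1]
        rw [← Finset.mul_sum]
        refine mul_le_mul_of_nonneg_left ?_ (Real.exp_pos _).le
        rw [sum_units]
        have h2 : sg (1 : ℤˣ) = 1 := by simp [sg]
        have h3 : sg (-1 : ℤˣ) = -1 := by simp [sg]
        rw [h2, h3]
        have h4 : Real.exp (lam * (1 * T d (ext σ))) + Real.exp (lam * (-1 * T d (ext σ))) =
            2 * Real.cosh (lam * T d (ext σ)) := by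
          rw [Real.cosh_eq]
          have e1 : lam * (1 * T d (ext σ)) = lam * T d (ext σ) := by ring
          have e2 : lam * (-1 * T d (ext σ)) = -(lam * T d (ext σ)) := by ring
          rw [e1, e2]
          ring
        rw [h4]
        refine mul_le_mul_of_nonneg_left ((Real.cosh_le_exp_half_sq _).trans ?_) (by norm_num)
        refine Real.exp_le_exp.2 ?_
        have h5 : (T d (ext σ)) ^ 2 ≤ (m d) ^ 2 := by
          have := hm d hd (ext σ)
          rw [← sq_abs (T d (ext σ))]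
          exact pow_le_pow_left₀ (abs_nonneg _) this 2
        calc (lam * T d (ext σ)) ^ 2 / 2 = lam ^ 2 / 2 * (T d (ext σ)) ^ 2 := by ring
          _ ≤ lam ^ 2 / 2 * (m d) ^ 2 := mul_le_mul_of_nonneg_left h5 (by positivity)
      refine (Finset.sum_le_sum fun σ _ => hterm σ).trans ?_
      rw [← Finset.sum_mul]
      refine (mul_le_mul_of_nonneg_right ih' (by positivity)).trans (le_of_eq ?_)
      rw [← Finset.add_sum_erase _ _ hd, mul_add, Real.exp_add, pow_succ]
      ring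
    · have hterm : ∀ σ : Fin d → ℤˣ, ∑ e : ℤˣ, Real.exp (lam * ∑ i ∈ I,
          sg (ext (Fin.snoc (α := fun _ => ℤˣ) σ e) i) *
            T i (ext (Fin.snoc (α := fun _ => ℤˣ) σ e))) =
          Real.exp (lam * ∑ i ∈ I.erase d, sg (ext σ i) * T i (ext σ)) * 2 := by
        intro σ
        have h1 : ∀ e : ℤˣ, Real.exp (lam * ∑ i ∈ I,
            sg (ext (Fin.snoc (α := fun _ => ℤˣ) σ e) i) *
              T i (ext (Fin.snoc (α := fun _ => ℤˣ) σ e))) =
            Real.exp (lam * ∑ i ∈ I.erase d, sg (ext σ i) * T i (ext σ)) := by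
          intro e
          rw [← hsum σ e, Finset.erase_eq_of_notMem hd]
        rw [sum_units, h1, h1]
        ring
      simp only [hterm]
      rw [← Finset.sum_mul]
      refine (mul_le_mul_of_nonneg_right ih' (by norm_num)).trans (le_of_eq ?_)
      rw [Finset.erase_eq_of_notMem hd, pow_succ]
      ring

theorem azuma (d : ℕ) (I : Finset ℕ) (hI : ∀ i ∈ I, i < d) (T : ℕ → (ℕ → ℤˣ) → ℝ)
    (hT : ∀ i ∈ I, ∀ r r' : ℕ → ℤˣ, (∀ l < i, r l = r' l) → T i r = T i r')
    (m : ℕ → ℝ) (hm : ∀ i ∈ I, ∀ r, |T i r| ≤ m i) (V : ℝ) (hV : 0 < V)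
    (hmV : ∑ i ∈ I, (m i) ^ 2 ≤ V) (t : ℝ) (ht : 0 ≤ t) :
    (((Finset.univ : Finset (Fin d → ℤˣ)).filter
      (fun σ => t ≤ |∑ i ∈ I, sg (ext σ i) * T i (ext σ)|)).card : ℝ) ≤
      2 * 2 ^ d * Real.exp (-(t ^ 2 / (2 * V))) := by
  set lam : ℝ := t / V with hlam
  have hlam0 : 0 ≤ lam := div_nonneg ht hV.le
  have h1 : (((Finset.univ : Finset (Fin d → ℤˣ)).filter
      (fun σ => t ≤ |∑ i ∈ I, sg (ext σ i) * T i (ext σ)|)).card : ℝ) ≤
      ∑ σ : Fin d → ℤˣ, Real.exp (-(lam * t)) *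
        (Real.exp (lam * ∑ i ∈ I, sg (ext σ i) * T i (ext σ)) +
          Real.exp (-lam * ∑ i ∈ I, sg (ext σ i) * T i (ext σ))) := by
    rw [Finset.card_eq_sum_ones, Nat.cast_sum, Finset.sum_filter]
    refine Finset.sum_le_sum fun σ _ => ?_
    split_ifs with hσ
    · rw [Nat.cast_one, mul_add, ← Real.exp_add, ← Real.exp_add]
      rcases le_abs.1 hσ with h | h
      · have h2 : 1 ≤ Real.exp (-(lam * t) + lam * ∑ i ∈ I, sg (ext σ i) * T i (ext σ)) := by
          rw [Real.one_le_exp_iff]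
          have := mul_le_mul_of_nonneg_left h hlam0
          linarith
        have h3 := Real.exp_pos (-(lam * t) + -lam * ∑ i ∈ I, sg (ext σ i) * T i (ext σ))
        linarith
      · have h2 : 1 ≤ Real.exp (-(lam * t) + -lam * ∑ i ∈ I, sg (ext σ i) * T i (ext σ)) := by
          rw [Real.one_le_exp_iff]
          have := mul_le_mul_of_nonneg_left h hlam0
          linarith
        have h3 := Real.exp_pos (-(lam * t) + lam * ∑ i ∈ I, sg (ext σ i) * T i (ext σ))
        linarith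
    · positivity
  refine h1.trans ?_
  rw [← Finset.mul_sum, Finset.sum_add_distrib]
  have h2 := azuma_mgf lam T m d I hI hT hm
  have h3 := azuma_mgf (-lam) T m d I hI hT hm
  have h4 : lam ^ 2 / 2 * ∑ i ∈ I, (m i) ^ 2 ≤ lam ^ 2 / 2 * V :=
    mul_le_mul_of_nonneg_left hmV (by positivity)
  have h5 : (2 : ℝ) ^ d * Real.exp (lam ^ 2 / 2 * ∑ i ∈ I, (m i) ^ 2) ≤
      2 ^ d * Real.exp (lam ^ 2 / 2 * V) :=
    mul_le_mul_of_nonneg_left (Real.exp_le_exp.2 h4) (by positivity)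
  rw [neg_sq] at h3
  calc Real.exp (-(lam * t)) * (∑ σ : Fin d → ℤˣ, Real.exp (lam * ∑ i ∈ I, sg (ext σ i) * T i (ext σ)) +
        ∑ σ : Fin d → ℤˣ, Real.exp (-lam * ∑ i ∈ I, sg (ext σ i) * T i (ext σ)))
      ≤ Real.exp (-(lam * t)) * (2 ^ d * Real.exp (lam ^ 2 / 2 * V) + 2 ^ d * Real.exp (lam ^ 2 / 2 * V)) :=
        mul_le_mul_of_nonneg_left (add_le_add (h2.trans h5) (h3.trans h5)) (Real.exp_pos _).le
    _ = 2 * 2 ^ d * (Real.exp (-(lam * t)) * Real.exp (lam ^ 2 / 2 * V)) := by ring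
    _ = 2 * 2 ^ d * Real.exp (-(t ^ 2 / (2 * V))) := by
        rw [← Real.exp_add]
        congr 2
        rw [hlam]
        field_simp
        ring

end Pool.Agent.EXD
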