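import Pool.Agent.EXD.Defs
import Pool.Agent.Helper50.FS.BernIff
import Pool.Agent.Helper50.FS.BernCorr

/-!
# EXD-BernF: one test function needs finitely many correlations

The Walsh functions are dense; correlations with integer shifts differ from those with nonnegative
shifts by `O(1)/log N`.
-/

open Filter Topology MeasureTheory

namespace Pool.Agent.EXD

open Pool.Agent.Helper50.FS

private theorem abs_sg (e : ℤˣ) : |sg e| = 1 := by
  rcases Int.units_eq_one_or e with rfl | rfl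
  · simp [sg]
  · simp [sg]

private theorem step_one (G : ℕ → ℝ) (hG : ∀ n, |G n| ≤ 1) (N : ℕ) (hN : 1 ≤ N) :
    |(∑ n ∈ Finset.Icc 1 N, G (n + 1) / n - ∑ n ∈ Finset.Icc 1 N, G n / n) - G (N + 1) / N|
      ≤ 2 - 1 / N := by
  induction N, hN using Nat.le_induction with
  | base =>
    have h1 : (∑ n ∈ Finset.Icc 1 1, G (n + 1) / n - ∑ n ∈ Finset.Icc 1 1, G n / n)
        - G (1 + 1) / ((1 : ℕ) : ℝ) = -G 1 := by
      simp
    rw [h1, abs_neg]
    have := hG 1
    norm_num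
    exact this
  | succ N hN ih =>
    rw [Finset.sum_Icc_succ_top (by omega), Finset.sum_Icc_succ_top (by omega)]
    have hN0 : (0 : ℝ) < N := by exact_mod_cast hN
    have h1 : (∑ n ∈ Finset.Icc 1 N, G (n + 1) / n + G (N + 1 + 1) / ((N + 1 : ℕ) : ℝ)
        - (∑ n ∈ Finset.Icc 1 N, G n / n + G (N + 1) / ((N + 1 : ℕ) : ℝ)))
        - G (N + 1 + 1) / ((N + 1 : ℕ) : ℝ)
        = ((∑ n ∈ Finset.Icc 1 N, G (n + 1) / n - ∑ n ∈ Finset.Icc 1 N, G n / n)
          - G (N + 1) / N) + G (N + 1) * (1 / N - 1 / ((N + 1 : ℕ) : ℝ)) := by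
      ring
    rw [h1]
    have h2 : (0 : ℝ) ≤ 1 / N - 1 / ((N + 1 : ℕ) : ℝ) := by
      rw [sub_nonneg]
      apply one_div_le_one_div_of_le hN0
      push_cast
      linarith
    calc |((∑ n ∈ Finset.Icc 1 N, G (n + 1) / n - ∑ n ∈ Finset.Icc 1 N, G n / n)
          - G (N + 1) / N) + G (N + 1) * (1 / N - 1 / ((N + 1 : ℕ) : ℝ))|
        ≤ |(∑ n ∈ Finset.Icc 1 N, G (n + 1) / n - ∑ n ∈ Finset.Icc 1 N, G n / n)
          - G (N + 1) / N| + |G (N + 1) * (1 / N - 1 / ((N + 1 : ℕ) : ℝ))| := abs_add_le _ _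
      _ ≤ (2 - 1 / N) + 1 * (1 / N - 1 / ((N + 1 : ℕ) : ℝ)) := by
          rw [abs_mul, abs_of_nonneg h2]
          exact add_le_add ih (mul_le_mul_of_nonneg_right (hG _) h2)
      _ = 2 - 1 / ((N + 1 : ℕ) : ℝ) := by ring

private theorem step_two (G : ℕ → ℝ) (hG : ∀ n, |G n| ≤ 1) (N : ℕ) :
    |∑ n ∈ Finset.Icc 1 N, G (n + 1) / n - ∑ n ∈ Finset.Icc 1 N, G n / n| ≤ 2 := by
  rcases Nat.eq_zero_or_pos N with rfl | hN
  · simp
  have h1 := step_one G hG N hN
  have hN0 : (0 : ℝ) < N := by exact_mod_cast hN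
  have h2 : |G (N + 1) / N| ≤ 1 / N := by
    rw [abs_div, abs_of_pos hN0]
    exact div_le_div_of_nonneg_right (hG _) hN0.le
  calc |∑ n ∈ Finset.Icc 1 N, G (n + 1) / n - ∑ n ∈ Finset.Icc 1 N, G n / n|
      = |((∑ n ∈ Finset.Icc 1 N, G (n + 1) / n - ∑ n ∈ Finset.Icc 1 N, G n / n) - G (N + 1) / N)
        + G (N + 1) / N| := by rw [sub_add_cancel]
    _ ≤ (2 - 1 / N) + 1 / N := (abs_add_le _ _).trans (add_le_add h1 h2)
    _ = 2 := by ring

private theorem step_all (F : ℕ → ℝ) (hF : ∀ n, |F n| ≤ 1) (t N : ℕ) :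
    |∑ n ∈ Finset.Icc 1 N, F (n + t) / n - ∑ n ∈ Finset.Icc 1 N, F n / n| ≤ 2 * t := by
  induction t with
  | zero => simp
  | succ t ih =>
    have h1 := step_two (fun n => F (n + t)) (fun n => hF _) N
    have h2 : ∀ n : ℕ, n + 1 + t = n + (t + 1) := fun n => by omega
    simp only [h2] at h1
    calc |∑ n ∈ Finset.Icc 1 N, F (n + (t + 1)) / n - ∑ n ∈ Finset.Icc 1 N, F n / n|
        = |(∑ n ∈ Finset.Icc 1 N, F (n + (t + 1)) / n - ∑ n ∈ Finset.Icc 1 N, F (n + t) / n)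
          + (∑ n ∈ Finset.Icc 1 N, F (n + t) / n - ∑ n ∈ Finset.Icc 1 N, F n / n)| := by
            rw [sub_add_sub_cancel]
      _ ≤ 2 + 2 * t := (abs_add_le _ _).trans (add_le_add h1 ih)
      _ = 2 * ((t + 1 : ℕ) : ℝ) := by push_cast; ring

private theorem pt_pos (u : ℕ → ℤˣ) {z : ℤ} {m : ℕ} (hz : z = m) (hm : 0 < m) : pt u z = u m := by
  subst hz
  unfold pt
  rw [if_pos (by exact_mod_cast hm), Int.toNat_natCast]

/-- The set `A` moved into the nonnegative integers. -/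
private noncomputable def mv (A : Finset ℤ) : Finset ℕ :=
  A.image (fun a : ℤ => (a + ((∑ a ∈ A, a.natAbs : ℕ) : ℤ)).toNat)

private theorem diff_tendsto (u : ℕ → ℤˣ) (A : Finset ℤ) :
    Tendsto (fun N => corr u A N - ncorr u (mv A) N) atTop (𝓝 0) := by
  classical
  obtain ⟨t, ht0⟩ : ∃ t : ℕ, t = ∑ a ∈ A, a.natAbs := ⟨_, rfl⟩
  have ht : ∀ a ∈ A, 0 ≤ a + t := by
    intro a ha
    have h1 : a.natAbs ≤ ∑ a ∈ A, a.natAbs :=
      Finset.single_le_sum (f := fun a : ℤ => a.natAbs) (fun _ _ => Nat.zero_le _) ha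
    omega
  have hmv : mv A = A.image (fun a : ℤ => (a + (t : ℤ)).toNat) := by
    rw [ht0]
    rfl
  set F : ℕ → ℝ := fun m => ∏ a ∈ A, sg (pt u (a + m)) with hFdef
  have hF : ∀ m, |F m| ≤ 1 := by
    intro m
    rw [hFdef]
    simp only
    rw [Finset.abs_prod]
    simp only [abs_sg, Finset.prod_const_one, le_refl]
  have hncorr : ∀ N, ncorr u (mv A) N = (1 / Real.log N) * ∑ n ∈ Finset.Icc 1 N, F (n + t) / n := by
    intro N
    unfold ncorr
    congr 1
    refine Finset.sum_congr rfl fun n hn => ?_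
    have hn1 : 1 ≤ n := (Finset.mem_Icc.1 hn).1
    congr 1
    rw [hmv, Finset.prod_image]
    · rw [hFdef]
      refine Finset.prod_congr rfl fun a ha => ?_
      have h1 := ht a ha
      rw [pt_pos u (m := n + (a + (t : ℤ)).toNat) (by push_cast; omega) (by omega)]
    · intro a ha b hb hab
      have h1 := ht a ha
      have h2 := ht b hb
      have h3 : (a + (t : ℤ)).toNat = (b + (t : ℤ)).toNat := hab
      omega
  have hlog : Tendsto (fun N : ℕ => (2 * (t : ℝ)) / Real.log N) atTop (𝓝 0) :=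
    Tendsto.div_atTop tendsto_const_nhds (Real.tendsto_log_atTop.comp tendsto_natCast_atTop_atTop)
  refine squeeze_zero_norm' ?_ hlog
  filter_upwards [eventually_ge_atTop 1] with N hN
  have hlogN : 0 ≤ Real.log N := Real.log_nonneg (by exact_mod_cast hN)
  rw [hncorr]
  unfold corr
  rw [← mul_sub, norm_mul, Real.norm_eq_abs, Real.norm_eq_abs, abs_of_nonneg (by positivity),
    abs_sub_comm, one_div, inv_mul_eq_div]
  exact div_le_div_of_nonneg_right (step_all F hF t N) hlogN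

open Classical in
/-- Every correlation is eventually close to the integral of the Walsh function. -/
private theorem corr_close (u : ℕ → ℤˣ) (δ : ℝ) (hδ : 0 < δ) (A : Finset ℤ)
    (h : A.Nonempty → ∀ᶠ N : ℕ in atTop, |ncorr u (mv A) N| ≤ δ) :
    ∀ᶠ N : ℕ in atTop, |corr u A N - ∫ x : X, ∏ a ∈ A, sg (x a) ∂bern| ≤ 2 * δ := by
  rcases A.eq_empty_or_nonempty with rfl | hA
  · have h1 : (∫ x : X, ∏ a ∈ (∅ : Finset ℤ), sg (x a) ∂bern) = 1 := by
      simp
    have h2 : corr u ∅ = bcHav := by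
      funext N
      simp [corr, bcHav]
    rw [h1, h2]
    filter_upwards [(Metric.tendsto_nhds.1 bc_tendsto_hav) δ hδ] with N hN
    rw [Real.dist_eq] at hN
    linarith
  · rw [integral_walsh A hA]
    filter_upwards [h hA, (Metric.tendsto_nhds.1 (diff_tendsto u A)) δ hδ] with N h1 h2
    rw [Real.dist_eq, sub_zero] at h2
    rw [sub_zero]
    have h3 : corr u A N = (corr u A N - ncorr u (mv A) N) + ncorr u (mv A) N := by ring
    rw [h3]
    refine (abs_add_le _ _).trans ?_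
    linarith

theorem test_fun (f : C(X, ℝ)) (ε : ℝ) (hε : 0 < ε) :
    ∃ (s : Finset (Finset ℕ)) (δ : ℝ), 0 < δ ∧ (∀ A ∈ s, A.Nonempty) ∧
      ∀ u : ℕ → ℤˣ, (∀ A ∈ s, ∀ᶠ N : ℕ in atTop, |ncorr u A N| ≤ δ) →
        ∀ᶠ N : ℕ in atTop, |logAvg u f N - ∫ x, f x ∂bern| < ε := by
  classical
  obtain ⟨s, c, hsc⟩ := walsh_dense f (ε / 8) (by positivity)
  have hC : 0 ≤ ∑ A ∈ s, |c A| := Finset.sum_nonneg fun _ _ => abs_nonneg _
  have hδ : 0 < ε / (8 * (1 + ∑ A ∈ s, |c A|)) := by positivity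
  refine ⟨(s.filter fun A => A.Nonempty).image mv, ε / (8 * (1 + ∑ A ∈ s, |c A|)), hδ, ?_, ?_⟩
  · intro A hA
    obtain ⟨B, hB, rfl⟩ := Finset.mem_image.1 hA
    exact (Finset.mem_filter.1 hB).2.image _
  intro u hu
  set δ := ε / (8 * (1 + ∑ A ∈ s, |c A|)) with hδdef
  set g : C(X, ℝ) := ∑ A ∈ s, c A • bcWalsh A with hg
  have hgx : ∀ x, g x = ∑ A ∈ s, c A * ∏ a ∈ A, sg (x a) := by
    intro x
    rw [hg, ContinuousMap.sum_apply]
    rfl
  have hfg : ∀ x, |f x - g x| ≤ ε / 8 := fun x => by rw [hgx]; exact hsc x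
  have hgL : ∀ N, logAvg u g N = ∑ A ∈ s, c A * corr u A N := by
    intro N
    unfold logAvg corr
    simp only [hgx, Finset.sum_div, Finset.mul_sum]
    rw [Finset.sum_comm]
    refine Finset.sum_congr rfl fun A _ => Finset.sum_congr rfl fun n _ => ?_
    simp only [shift]
    ring
  have hint : ∀ F : C(X, ℝ), Integrable (fun x => F x) bern := fun F =>
    F.continuous.integrable_of_hasCompactSupport (HasCompactSupport.of_compactSpace _)
  have hgI : ∫ x, g x ∂bern = ∑ A ∈ s, c A * ∫ x : X, ∏ a ∈ A, sg (x a) ∂bern := by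
    simp only [hgx]
    rw [integral_finsetSum _ fun A _ => ?_]
    · exact Finset.sum_congr rfl fun A _ => integral_const_mul _ _
    · exact (hint (bcWalsh A)).const_mul (c A)
  have h0 : ∀ᶠ N : ℕ in atTop, ∀ A ∈ s,
      |corr u A N - ∫ x : X, ∏ a ∈ A, sg (x a) ∂bern| ≤ 2 * δ := by
    rw [Filter.eventually_all_finset]
    intro A hA
    exact corr_close u δ hδ A fun hne => hu (mv A)
      (Finset.mem_image_of_mem _ (Finset.mem_filter.2 ⟨hA, hne⟩))
  have h2 : ∀ᶠ N : ℕ in atTop, bcHav N < 2 := bc_tendsto_hav.eventually_lt_const (by norm_num)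
  have h3 : |(∫ x, f x ∂bern) - ∫ x, g x ∂bern| ≤ ε / 8 := by
    rw [← integral_sub (hint f) (hint g)]
    have := norm_integral_le_of_norm_le_const (μ := bern) (f := fun x => f x - g x) (C := ε / 8)
      (Filter.Eventually.of_forall fun x => by rw [Real.norm_eq_abs]; exact hfg x)
    rw [Real.norm_eq_abs] at this
    simpa using this
  have h4 : ∀ N, |logAvg u f N - logAvg u g N| ≤ ε / 8 * bcHav N := by
    intro N
    have e1 : logAvg u f N - logAvg u g N = (1 / Real.log N) * ∑ n ∈ Finset.Icc 1 N,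
        (f (shift (n : ℤ) (pt u)) - g (shift (n : ℤ) (pt u))) / n := by
      unfold logAvg
      rw [← mul_sub, ← Finset.sum_sub_distrib]
      congr 1
      exact Finset.sum_congr rfl fun n _ => by rw [sub_div]
    have hlog : 0 ≤ 1 / Real.log (N : ℝ) := one_div_nonneg.2 (Real.log_natCast_nonneg N)
    rw [e1, abs_mul, abs_of_nonneg hlog]
    have e2 : |∑ n ∈ Finset.Icc 1 N,
        (f (shift (n : ℤ) (pt u)) - g (shift (n : ℤ) (pt u))) / (n : ℝ)| ≤
        ∑ n ∈ Finset.Icc 1 N, ε / 8 * ((1 : ℝ) / n) := by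
      refine (Finset.abs_sum_le_sum_abs _ _).trans (Finset.sum_le_sum fun n _ => ?_)
      rw [abs_div, Nat.abs_cast, div_eq_mul_one_div]
      exact mul_le_mul_of_nonneg_right (hfg _) (by positivity)
    calc (1 / Real.log (N : ℝ)) * |∑ n ∈ Finset.Icc 1 N,
        (f (shift (n : ℤ) (pt u)) - g (shift (n : ℤ) (pt u))) / (n : ℝ)| ≤
        (1 / Real.log (N : ℝ)) * ∑ n ∈ Finset.Icc 1 N, ε / 8 * ((1 : ℝ) / n) :=
          mul_le_mul_of_nonneg_left e2 hlog
      _ = ε / 8 * bcHav N := by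
          unfold bcHav
          rw [← Finset.mul_sum]
          ring
  filter_upwards [h0, h2] with N hN0 hN2
  have h1 : |logAvg u g N - ∫ x, g x ∂bern| ≤ ε / 4 := by
    rw [hgL, hgI, ← Finset.sum_sub_distrib]
    refine (Finset.abs_sum_le_sum_abs _ _).trans ?_
    have h5 : ∑ A ∈ s, |c A * corr u A N - c A * ∫ x : X, ∏ a ∈ A, sg (x a) ∂bern| ≤
        ∑ A ∈ s, |c A| * (2 * δ) := by
      refine Finset.sum_le_sum fun A hA => ?_
      rw [← mul_sub, abs_mul]
      exact mul_le_mul_of_nonneg_left (hN0 A hA) (abs_nonneg _)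
    refine h5.trans ?_
    rw [← Finset.sum_mul]
    have h6 : δ * (1 + ∑ A ∈ s, |c A|) = ε / 8 := by
      rw [hδdef]
      field_simp
    nlinarith
  have h5 := h4 N
  have h6 : ε / 8 * bcHav N ≤ ε / 8 * 2 := mul_le_mul_of_nonneg_left hN2.le (by positivity)
  have e3 : logAvg u f N - ∫ x, f x ∂bern = (logAvg u f N - logAvg u g N) +
      (logAvg u g N - ∫ x, g x ∂bern) - ((∫ x, f x ∂bern) - ∫ x, g x ∂bern) := by ring
  rw [e3]
  refine (abs_sub _ _).trans_lt ?_
  have := abs_add_le (logAvg u f N - logAvg u g N) (logAvg u g N - ∫ x, g x ∂bern)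
  linarith

end Pool.Agent.EXD
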