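import Pool.Agent.EXD.Mul

/-!
# EXD-Dec: decomposition by the largest prime

`dec`: the sum `S` is the sum of the terms belonging to the primes in `(y, B]`, up to the number of the `n` without
a simple largest prime above `y`. `Y_local`, `Y_le`: the coefficient of a prime depends only on the signs of smaller
primes and is bounded by the number of the multiples of `p` in short intervals.
-/

namespace Pool.Agent.EXD

open Pool.Agent.Helper50.FS

private theorem dec_sg (e : ℤˣ) : |sg e| = 1 := by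
  rcases Int.units_eq_one_or e with rfl | rfl <;> simp [sg]

private theorem dec_Z (A : Finset ℕ) {n : ℕ} (hn : 1 ≤ n) : Z A n ≠ 0 := by
  unfold Z
  exact Finset.prod_ne_zero_iff.2 fun a _ => by omega

open Classical in
theorem dec (P : Set ℕ) (hP : ∀ p ∈ P, p.Prime) (A : Finset ℕ) (w : ℕ → ℝ) (hw : ∀ n, |w n| ≤ 1)
    (N y B : ℕ) (hB : ∀ a ∈ A, N + a ≤ B) (r : ℕ → ℤˣ) :
    |S P A w N r - ∑ p ∈ (Finset.Ioc y B).filter (fun p => p ∈ P), sg (r (idx P p)) * Y P A w N p r| ≤
      (((Finset.Icc 1 N).filter (fun n => ¬ ∃ p, y < p ∧ Top P (Z A n) p)).card : ℝ) := by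
  have h1 : ∑ p ∈ (Finset.Ioc y B).filter (fun p => p ∈ P), sg (r (idx P p)) * Y P A w N p r =
      ∑ n ∈ Finset.Icc 1 N, ∑ p ∈ (Finset.Ioc y B).filter (fun p => p ∈ P),
        (if Top P (Z A n) p then sg (r (idx P p)) * (w n * sg (cm P r (Z A n / p))) else 0) := by
    rw [Finset.sum_comm]
    refine Finset.sum_congr rfl fun p _ => ?_
    unfold Y
    rw [Finset.mul_sum, Finset.sum_filter]
  have h2 : S P A w N r = ∑ n ∈ Finset.Icc 1 N, w n * sg (cm P r (Z A n)) := by
    unfold S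
    refine Finset.sum_congr rfl fun n hn => ?_
    rw [cm_Z P r A n (Finset.mem_Icc.1 hn).1]
  have h3 : ∀ n ∈ Finset.Icc 1 N, w n * sg (cm P r (Z A n)) -
      ∑ p ∈ (Finset.Ioc y B).filter (fun p => p ∈ P),
        (if Top P (Z A n) p then sg (r (idx P p)) * (w n * sg (cm P r (Z A n / p))) else 0) =
      if ¬ ∃ p, y < p ∧ Top P (Z A n) p then w n * sg (cm P r (Z A n)) else 0 := by
    intro n hn
    have hn1 := (Finset.mem_Icc.1 hn).1
    have hnN := (Finset.mem_Icc.1 hn).2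
    by_cases hex : ∃ p, y < p ∧ Top P (Z A n) p
    · rw [if_neg (not_not.2 hex)]
      obtain ⟨p, hyp, hp⟩ := hex
      have hpB : p ≤ B := by
        obtain ⟨a, ha, hpa⟩ := ((hP p hp.1).prime.dvd_finsetProd_iff (fun a => n + a)).1 hp.2.1
        have h4 := Nat.le_of_dvd (by omega) hpa
        have h5 := hB a ha
        omega
      have hpm : p ∈ (Finset.Ioc y B).filter (fun p => p ∈ P) :=
        Finset.mem_filter.2 ⟨Finset.mem_Ioc.2 ⟨hyp, hpB⟩, hp.1⟩
      rw [Finset.sum_eq_single_of_mem p hpm, if_pos hp]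
      · rw [(cm_top P hP r (Z A n) p (dec_Z A hn1) hp).1]
        ring
      · intro q hq hqp
        refine if_neg fun hT => hqp ?_
        exact le_antisymm (hp.2.2.2 q hT.1 hT.2.1) (hT.2.2.2 p hp.1 hp.2.1)
    · rw [if_pos hex, Finset.sum_eq_zero, sub_zero]
      intro q hq
      refine if_neg fun hT => hex ⟨q, ?_, hT⟩
      exact (Finset.mem_Ioc.1 (Finset.mem_filter.1 hq).1).1
  rw [h1, h2, ← Finset.sum_sub_distrib, Finset.sum_congr rfl h3, ← Finset.sum_filter]
  refine (Finset.abs_sum_le_sum_abs _ _).trans ?_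
  calc ∑ n ∈ (Finset.Icc 1 N).filter (fun n => ¬ ∃ p, y < p ∧ Top P (Z A n) p),
        |w n * sg (cm P r (Z A n))|
      ≤ ∑ _n ∈ (Finset.Icc 1 N).filter (fun n => ¬ ∃ p, y < p ∧ Top P (Z A n) p), (1 : ℝ) := by
        refine Finset.sum_le_sum fun n _ => ?_
        rw [abs_mul, dec_sg, mul_one]
        exact hw n
    _ = _ := by rw [Finset.sum_const, nsmul_eq_mul, mul_one]

theorem Y_local (P : Set ℕ) (hP : ∀ p ∈ P, p.Prime) (A : Finset ℕ) (w : ℕ → ℝ) (N p : ℕ)
    (r r' : ℕ → ℤˣ) (h : ∀ i < idx P p, r i = r' i) : Y P A w N p r = Y P A w N p r' := by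
  classical
  unfold Y
  refine Finset.sum_congr rfl fun n hn => ?_
  obtain ⟨hn1, hT⟩ := Finset.mem_filter.1 hn
  rw [cm_local P r r' (Z A n / p) p h
    (cm_top P hP r (Z A n) p (dec_Z A (Finset.mem_Icc.1 hn1).1) hT).2]

/-- the number of multiples of `p` in `(a, a + N]` -/
private theorem dec_count (N a p : ℕ) (hp : 0 < p) :
    (((Finset.Icc 1 N).filter (fun n => p ∣ n + a)).card : ℝ) ≤ (N : ℝ) / p + 1 := by
  have h1 : ((Finset.Icc 1 N).filter (fun n => p ∣ n + a)).card ≤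
      (Finset.Ioc (a / p) ((a + N) / p)).card := by
    refine Finset.card_le_card_of_injOn (fun n => (n + a) / p) (fun n hn => ?_) ?_
    · have hn' := Finset.mem_filter.1 (Finset.mem_coe.1 hn)
      obtain ⟨h2, k, hk⟩ := hn'
      have h3 := Finset.mem_Icc.1 h2
      show (n + a) / p ∈ (Finset.Ioc (a / p) ((a + N) / p) : Set ℕ)
      rw [Finset.mem_coe, Finset.mem_Ioc, hk, Nat.mul_div_cancel_left k hp]
      constructor
      · rw [Nat.div_lt_iff_lt_mul hp, mul_comm, ← hk]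
        omega
      · rw [Nat.le_div_iff_mul_le hp, mul_comm, ← hk]
        omega
    · intro n hn m hm hnm
      have hn' := (Finset.mem_filter.1 (Finset.mem_coe.1 hn)).2
      have hm' := (Finset.mem_filter.1 (Finset.mem_coe.1 hm)).2
      have h2 : (n + a) / p = (m + a) / p := hnm
      have h3 := Nat.div_mul_cancel hn'
      have h4 := Nat.div_mul_cancel hm'
      rw [h2, h4] at h3
      omega
  have h2 : (Finset.Ioc (a / p) ((a + N) / p)).card ≤ N / p + 1 := by
    rw [Nat.card_Ioc, Nat.add_div hp]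
    generalize N / p = g
    generalize a / p = k
    split_ifs <;> omega
  have h3 : (((Finset.Icc 1 N).filter (fun n => p ∣ n + a)).card : ℝ) ≤ ((N / p + 1 : ℕ) : ℝ) :=
    Nat.cast_le.2 (h1.trans h2)
  refine h3.trans ?_
  rw [Nat.cast_add, Nat.cast_one]
  have h4 : ((N / p : ℕ) : ℝ) ≤ (N : ℝ) / p := Nat.cast_div_le
  linarith

theorem Y_le (P : Set ℕ) (hP : ∀ p ∈ P, p.Prime) (A : Finset ℕ) (w : ℕ → ℝ) (hw : ∀ n, |w n| ≤ 1)
    (N p : ℕ) (hp : p.Prime) (r : ℕ → ℤˣ) : |Y P A w N p r| ≤ A.card * ((N : ℝ) / p + 1) := by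
  classical
  unfold Y
  refine (Finset.abs_sum_le_sum_abs _ _).trans ?_
  calc ∑ n ∈ (Finset.Icc 1 N).filter (fun n => Top P (Z A n) p), |w n * sg (cm P r (Z A n / p))|
      ≤ ∑ _n ∈ (Finset.Icc 1 N).filter (fun n => Top P (Z A n) p), (1 : ℝ) := by
        refine Finset.sum_le_sum fun n _ => ?_
        rw [abs_mul, dec_sg, mul_one]
        exact hw n
    _ = (((Finset.Icc 1 N).filter (fun n => Top P (Z A n) p)).card : ℝ) := by
        rw [Finset.sum_const, nsmul_eq_mul, mul_one]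
    _ ≤ ((A.biUnion fun a => (Finset.Icc 1 N).filter (fun n => p ∣ n + a)).card : ℝ) := by
        refine Nat.cast_le.2 (Finset.card_le_card fun n hn => ?_)
        obtain ⟨h1, h2⟩ := Finset.mem_filter.1 hn
        obtain ⟨a, ha, hpa⟩ := (hp.prime.dvd_finsetProd_iff (fun a => n + a)).1 h2.2.1
        exact Finset.mem_biUnion.2 ⟨a, ha, Finset.mem_filter.2 ⟨h1, hpa⟩⟩
    _ ≤ ∑ a ∈ A, (((Finset.Icc 1 N).filter (fun n => p ∣ n + a)).card : ℝ) := by
        exact_mod_cast Finset.card_biUnion_le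
    _ ≤ ∑ _a ∈ A, ((N : ℝ) / p + 1) := Finset.sum_le_sum fun a _ => dec_count N a p hp.pos
    _ = A.card * ((N : ℝ) / p + 1) := by rw [Finset.sum_const, nsmul_eq_mul]

end Pool.Agent.EXD
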