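import Pool.Agent.EXD.Azuma
import Pool.Agent.EXD.Dec

/-!
# EXD-BlkDev: large deviations in one window

PLAN.  `dep P K j` is the number of elements of `P` up to `K^(j+1)`, so `idx P p < dep P K j` for
`p ∈ blk P K j` (`p ∈ P`, `p ≤ K^(j+1)`).  `idx P` is injective on `P` (`idx_lt`), so
`D = ∑_{i ∈ I} sg(r i) T i r` with `I = image (idx P) (blk P K j)`, `T i r = Y P A w N p r` for the
unique `p ∈ blk` with `idx P p = i` (e.g. `T i r = ∑_{p ∈ blk, idx P p = i} Y P A w N p r`).
`T i` depends only on the signs below `i` (`Y_local`).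
`blk_dev`: `azuma` with `m i = L`, `V = card blk * L^2`, `L = A.card * (N / K^j + 1)`
(`|Y| ≤ A.card (N/p + 1) ≤ L` as `p > K^j`, `Y_le`); the exponent is `t²/(2 V)`.
`D_res`: all the `Y` and signs in `D` have indices below `dep P K j`, where `ext (res d r)` and `r`
agree.
-/

namespace Pool.Agent.EXD

open Pool.Agent.Helper50.FS

private lemma idx_lt_dep (P : Set ℕ) (hP : ∀ p ∈ P, p.Prime) (K j : ℕ) {p : ℕ}
    (hp : p ∈ blk P K j) : idx P p < dep P K j := by
  classical
  simp only [blk, Finset.mem_filter, Finset.mem_Ioc] at hp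
  obtain ⟨⟨_, h2⟩, h3⟩ := hp
  unfold idx dep upTo
  apply Finset.card_lt_card
  rw [Finset.ssubset_iff_of_subset]
  · refine ⟨p, ?_, ?_⟩
    · rw [Finset.mem_filter, Finset.mem_Icc]
      exact ⟨⟨(hP p h3).one_lt.le, h2⟩, h3⟩
    · intro h
      rw [Finset.mem_filter, Finset.mem_range] at h
      omega
  · intro q hq
    rw [Finset.mem_filter, Finset.mem_range] at hq
    rw [Finset.mem_filter, Finset.mem_Icc]
    exact ⟨⟨(hP q hq.2).one_lt.le, by omega⟩, hq.2⟩

private lemma blk_mem (P : Set ℕ) (K j : ℕ) {p : ℕ} (hp : p ∈ blk P K j) :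
    p ∈ P ∧ K ^ j < p := by
  classical
  simp only [blk, Finset.mem_filter, Finset.mem_Ioc] at hp
  exact ⟨hp.2, hp.1.1⟩

private lemma idx_inj' (P : Set ℕ) {p q : ℕ} (hp : p ∈ P) (hq : q ∈ P) (h : idx P p = idx P q) :
    p = q := by
  rcases lt_trichotomy p q with h1 | h1 | h1
  · have := idx_lt P hp h1
    omega
  · exact h1
  · have := idx_lt P hq h1
    omega

theorem blk_dev (P : Set ℕ) (hP : ∀ p ∈ P, p.Prime) (K : ℕ) (hK : 2 ≤ K) (A : Finset ℕ)
    (hA : A.Nonempty) (w : ℕ → ℝ) (hw : ∀ n, |w n| ≤ 1) (N j : ℕ) (hb : (blk P K j).Nonempty)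
    (t : ℝ) (ht : 0 ≤ t) :
    (((Finset.univ : Finset (Fin (dep P K j) → ℤˣ)).filter
      (fun σ => t ≤ |D P K A w N j (ext σ)|)).card : ℝ) ≤
      2 * 2 ^ (dep P K j) * Real.exp (-(t ^ 2 /
        (2 * ((blk P K j).card * (A.card * ((N : ℝ) / (K : ℝ) ^ j + 1)) ^ 2)))) := by
  classical
  have hKpos : (0 : ℝ) < K := by exact_mod_cast (by omega : 0 < K)
  set L : ℝ := A.card * ((N : ℝ) / (K : ℝ) ^ j + 1) with hL
  have hApos : (0 : ℝ) < A.card := by exact_mod_cast hA.card_pos
  have hLpos : 0 < L := by rw [hL]; positivity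
  set I : Finset ℕ := (blk P K j).image (idx P) with hI
  set T : ℕ → (ℕ → ℤˣ) → ℝ :=
    fun i r => ∑ p ∈ (blk P K j).filter (fun p => idx P p = i), Y P A w N p r with hT
  have hIcard : I.card ≤ (blk P K j).card := Finset.card_image_le
  have hIlt : ∀ i ∈ I, i < dep P K j := by
    intro i hi
    rw [hI, Finset.mem_image] at hi
    obtain ⟨p, hp, rfl⟩ := hi
    exact idx_lt_dep P hP K j hp
  have hTl : ∀ i ∈ I, ∀ r r' : ℕ → ℤˣ, (∀ l < i, r l = r' l) → T i r = T i r' := by
    intro i _ r r' hr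
    simp only [hT]
    apply Finset.sum_congr rfl
    intro p hp
    rw [Finset.mem_filter] at hp
    apply Y_local P hP A w N p r r'
    intro l hl
    exact hr l (by omega)
  have hTm : ∀ i ∈ I, ∀ r, |T i r| ≤ (fun _ : ℕ => L) i := by
    intro i hi r
    rw [hI, Finset.mem_image] at hi
    obtain ⟨p, hp, rfl⟩ := hi
    have hpP := blk_mem P K j hp
    have hsing : (blk P K j).filter (fun q => idx P q = idx P p) = {p} := by
      ext q
      rw [Finset.mem_filter, Finset.mem_singleton]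
      constructor
      · rintro ⟨h1, h2⟩
        exact idx_inj' P (blk_mem P K j h1).1 hpP.1 h2
      · rintro rfl
        exact ⟨hp, rfl⟩
    simp only [hT]
    rw [hsing, Finset.sum_singleton]
    refine (Y_le P hP A w hw N p (hP p hpP.1) r).trans ?_
    rw [hL]
    have h1 : ((K : ℝ) ^ j) ≤ p := by exact_mod_cast hpP.2.le
    have h2 : (0 : ℝ) < (K : ℝ) ^ j := pow_pos hKpos j
    gcongr
  have hVpos : (0 : ℝ) < (blk P K j).card * L ^ 2 := by
    have : (0 : ℝ) < (blk P K j).card := by exact_mod_cast hb.card_pos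
    positivity
  have hmV : ∑ i ∈ I, ((fun _ : ℕ => L) i) ^ 2 ≤ (blk P K j).card * L ^ 2 := by
    simp only [Finset.sum_const, nsmul_eq_mul]
    have : (I.card : ℝ) ≤ (blk P K j).card := by exact_mod_cast hIcard
    exact mul_le_mul_of_nonneg_right this (by positivity)
  have hmain := azuma (dep P K j) I hIlt T hTl (fun _ => L) hTm _ hVpos hmV t ht
  have hsum : ∀ r : ℕ → ℤˣ, ∑ i ∈ I, sg (r i) * T i r = D P K A w N j r := by
    intro r
    unfold D
    rw [← Finset.sum_fiberwise_of_maps_to (s := blk P K j) (t := I) (g := idx P)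
      (fun p hp => by rw [hI]; exact Finset.mem_image_of_mem _ hp)]
    apply Finset.sum_congr rfl
    intro i _
    simp only [hT]
    rw [Finset.mul_sum]
    apply Finset.sum_congr rfl
    intro p hp
    rw [Finset.mem_filter] at hp
    rw [hp.2]
  simp only [hsum] at hmain
  exact hmain

theorem D_res (P : Set ℕ) (hP : ∀ p ∈ P, p.Prime) (K : ℕ) (A : Finset ℕ) (w : ℕ → ℝ) (N j : ℕ)
    (r : ℕ → ℤˣ) : D P K A w N j (ext (res (dep P K j) r)) = D P K A w N j r := by
  have hagree : ∀ i < dep P K j, ext (res (dep P K j) r) i = r i := by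
    intro i hi
    simp [ext, res, hi]
  unfold D
  apply Finset.sum_congr rfl
  intro p hp
  have h1 := idx_lt_dep P hP K j hp
  rw [hagree _ h1, Y_local P hP A w N p (ext (res (dep P K j) r)) r
    (fun i hi => hagree i (by omega))]

end Pool.Agent.EXD
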