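import Pool.Agent.EXD.Defs

/-!
# EXD-Blocks: bookkeeping of the windows (Defs only, elementary)

PLAN.  `sum_blocks`: induction on `b` (from `a`): `Ioc (K^a) (K^(b+1))` is the disjoint union of
`Ioc (K^a) (K^b)` and `Ioc (K^b) (K^(b+1))`.
`weights`: for `j ≥ J/m ≥ 1` (natural division) and `J` large: `card/K^j ≤ C/j ≤ C/(J/m)
≤ 2 m C/J`, and there are at most `J + 2` values of `j`, so the sum is at most
`2 m C (J+2)/J ≤ 6 m C`.
`card_small`: `j < J/2` for all windows, so the elements are at most `K^(J/2)`, hence there are at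
most `K^(J/2)` of them, and `(K^(J/2))^2 ≤ K^J`.
-/

open Filter Topology

namespace Pool.Agent.EXD

open Pool.Agent.Helper50.FS

open Classical in
theorem sum_blocks (P : Set ℕ) (K : ℕ) (hK : 2 ≤ K) (F : ℕ → ℝ) (a b : ℕ) (hab : a ≤ b) :
    ∑ p ∈ (Finset.Ioc (K ^ a) (K ^ b)).filter (fun p => p ∈ P), F p =
      ∑ j ∈ Finset.Ico a b, ∑ p ∈ blk P K j, F p := by
  induction b, hab using Nat.le_induction with
  | base => simp
  | succ b hab ih =>
    rw [Finset.sum_Ico_succ_top hab, ← ih]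
    have hu : (Finset.Ioc (K ^ a) (K ^ (b + 1))).filter (fun p => p ∈ P) =
        (Finset.Ioc (K ^ a) (K ^ b)).filter (fun p => p ∈ P) ∪ blk P K b := by
      ext x
      have h1 : K ^ a ≤ K ^ b := Nat.pow_le_pow_right (by omega) hab
      have h2 : K ^ b ≤ K ^ (b + 1) := Nat.pow_le_pow_right (by omega) (by omega)
      simp only [blk, Finset.mem_filter, Finset.mem_union, Finset.mem_Ioc]
      constructor
      · rintro ⟨⟨h3, h4⟩, h5⟩
        by_cases h6 : x ≤ K ^ b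
        · exact Or.inl ⟨⟨h3, h6⟩, h5⟩
        · exact Or.inr ⟨⟨by omega, h4⟩, h5⟩
      · rintro (⟨⟨h3, h4⟩, h5⟩ | ⟨⟨h3, h4⟩, h5⟩)
        · exact ⟨⟨h3, by omega⟩, h5⟩
        · exact ⟨⟨by omega, h4⟩, h5⟩
    rw [hu, Finset.sum_union]
    rw [Finset.disjoint_left]
    intro x hx hy
    simp only [blk, Finset.mem_filter, Finset.mem_Ioc] at hx hy
    omega

theorem weights (P : Set ℕ) (K : ℕ) (hK : 2 ≤ K) (C : ℝ) (hC : 0 < C)
    (h : ∀ᶠ j : ℕ in atTop, ((blk P K j).card : ℝ) ≤ C * (K : ℝ) ^ j / j) (m : ℕ) (hm : 3 ≤ m) :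
    ∀ᶠ J : ℕ in atTop,
      ∑ j ∈ Finset.Ico (J / m) (J + 2), ((blk P K j).card : ℝ) / (K : ℝ) ^ j ≤ 6 * m * C := by
  obtain ⟨j0, hj0⟩ := Filter.eventually_atTop.1 h
  filter_upwards [Filter.eventually_ge_atTop (m * (j0 + 1)), Filter.eventually_ge_atTop 2]
    with J hJ hJ2
  have hm0 : 0 < m := by omega
  have hq : j0 + 1 ≤ J / m := (Nat.le_div_iff_mul_le hm0).2 (by rw [mul_comm]; exact hJ)
  have hKpos : (0 : ℝ) < K := by exact_mod_cast (by omega : 0 < K)
  have hq2 : J < m * (J / m + 1) := by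
    have := Nat.lt_mul_div_succ J hm0
    simpa using this
  have hJm : (J : ℝ) ≤ 2 * m * ((J / m : ℕ) : ℝ) := by
    have h1 : (J : ℝ) ≤ m * (((J / m : ℕ) : ℝ) + 1) := by
      exact_mod_cast le_of_lt hq2
    have h2 : (1 : ℝ) ≤ ((J / m : ℕ) : ℝ) := by
      exact_mod_cast (by omega : 1 ≤ J / m)
    have h3 : (0 : ℝ) < m := by exact_mod_cast hm0
    nlinarith
  have hJpos : (0 : ℝ) < J := by exact_mod_cast (by omega : 0 < J)
  have hterm : ∀ j ∈ Finset.Ico (J / m) (J + 2),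
      ((blk P K j).card : ℝ) / (K : ℝ) ^ j ≤ 2 * m * C / J := by
    intro j hj
    rw [Finset.mem_Ico] at hj
    have h1 := hj0 j (by omega)
    have hKj : (0 : ℝ) < (K : ℝ) ^ j := pow_pos hKpos j
    have hjq : (((J / m : ℕ) : ℝ)) ≤ j := by exact_mod_cast hj.1
    have hjpos : (0 : ℝ) < j := by exact_mod_cast (by omega : 0 < j)
    rw [div_le_iff₀ hKj]
    refine h1.trans ?_
    rw [div_le_iff₀ hjpos]
    have h4 : (J : ℝ) ≤ 2 * m * j := hJm.trans (by gcongr)
    have h5 : 2 * (m : ℝ) * C / J * (K : ℝ) ^ j * j = C * (K : ℝ) ^ j * ((2 * m * j) / J) := by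
      field_simp
    rw [h5]
    have h6 : (1 : ℝ) ≤ (2 * m * j) / J := by
      rw [le_div_iff₀ hJpos, one_mul]; exact h4
    have h7 : 0 ≤ C * (K : ℝ) ^ j := by positivity
    nlinarith
  have hcard : ((Finset.Ico (J / m) (J + 2)).card : ℝ) ≤ J + 2 := by
    rw [Nat.card_Ico]
    have : J + 2 - J / m ≤ J + 2 := Nat.sub_le _ _
    exact_mod_cast this
  calc ∑ j ∈ Finset.Ico (J / m) (J + 2), ((blk P K j).card : ℝ) / (K : ℝ) ^ j
      ≤ ∑ _j ∈ Finset.Ico (J / m) (J + 2), 2 * m * C / J := Finset.sum_le_sum hterm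
    _ = ((Finset.Ico (J / m) (J + 2)).card : ℝ) * (2 * m * C / J) := by
        rw [Finset.sum_const, nsmul_eq_mul]
    _ ≤ (J + 2) * (2 * m * C / J) := by
        apply mul_le_mul_of_nonneg_right hcard
        positivity
    _ ≤ 6 * m * C := by
        have h8 : ((J : ℝ) + 2) * (2 * m * C / J) = 2 * m * C * ((J + 2) / J) := by
          field_simp
        rw [h8]
        have h9 : ((J : ℝ) + 2) / J ≤ 3 := by
          rw [div_le_iff₀ hJpos]
          have : (2 : ℝ) ≤ J := by exact_mod_cast hJ2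
          linarith
        have h10 : (0 : ℝ) ≤ 2 * m * C := by positivity
        nlinarith

open Classical in
theorem card_small (P : Set ℕ) (K : ℕ) (hK : 2 ≤ K) (a J : ℕ) :
    ((Finset.Ioc (K ^ a) (K ^ (J / 2))).filter (fun p => p ∈ P)).card ^ 2 ≤ K ^ J := by
  have h1 : ((Finset.Ioc (K ^ a) (K ^ (J / 2))).filter (fun p => p ∈ P)).card ≤ K ^ (J / 2) := by
    refine (Finset.card_filter_le _ _).trans ?_
    rw [Nat.card_Ioc]
    exact Nat.sub_le _ _
  calc ((Finset.Ioc (K ^ a) (K ^ (J / 2))).filter (fun p => p ∈ P)).card ^ 2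
      ≤ (K ^ (J / 2)) ^ 2 := Nat.pow_le_pow_left h1 2
    _ = K ^ (J / 2 * 2) := by rw [← pow_mul]
    _ ≤ K ^ J := Nat.pow_le_pow_right (by omega) (by omega)

end Pool.Agent.EXD
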