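import Pool.Agent.EXD.BlkDev

/-!
# EXD-Cnt: few bad patterns at depth `dep P K j`

`bad P K m A w θ j`: the patterns `σ` of length `dep P K j` for which there is `N` with
`K^j ≤ K N` and `N < K^(m(j+1)+1)` and `θ N |blk j| / K^j ≤ |D N j (ext σ)|`.
For one `N` the large deviation estimate `blk_dev` gives at most `2 * 2^dep * exp(-c1 dep)` patterns,
`c1 = θ²/(4 k² (K+1)²)`; the number of `N` is absorbed by half of the exponent.
-/

open Filter Topology

namespace Pool.Agent.EXD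

open Pool.Agent.Helper50.FS

open Classical in
/-- bad patterns -/
noncomputable def bad (P : Set ℕ) (K m : ℕ) (A : Finset ℕ) (w : ℕ → ℝ) (θ : ℝ) (j : ℕ) :
    Finset (Fin (dep P K j) → ℤˣ) :=
  Finset.univ.filter (fun σ => ∃ N : ℕ, K ^ j ≤ K * N ∧ N < K ^ (m * (j + 1) + 1) ∧
    θ * N * (blk P K j).card / (K : ℝ) ^ j ≤ |D P K A w N j (ext σ)|)

private theorem blk_le_dep (P : Set ℕ) (K j : ℕ) : (blk P K j).card ≤ dep P K j := by
  classical
  unfold blk dep upTo
  refine Finset.card_le_card ?_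
  intro p hp
  rw [Finset.mem_filter, Finset.mem_Ioc] at hp
  rw [Finset.mem_filter, Finset.mem_Icc]
  exact ⟨⟨by omega, hp.1.2⟩, hp.2⟩

/-- The exponent of the large deviation estimate. -/
private theorem exponent_ge {θ B X k K d : ℝ} (hθ : 0 < θ) (hB : 0 < B) (hX : 0 < X) (hk : 0 < k) (hK : 0 < K)
    (h1 : 1 ≤ K * X) (hd : d ≤ 2 * B) :
    θ ^ 2 / (4 * k ^ 2 * (K + 1) ^ 2) * d ≤ (θ * X * B) ^ 2 / (2 * (B * (k * (X + 1)) ^ 2)) := by
  have h2 : X + 1 ≤ (K + 1) * X := by linarith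
  have h3 : (k * (X + 1)) ^ 2 ≤ (k * ((K + 1) * X)) ^ 2 := by gcongr
  calc θ ^ 2 / (4 * k ^ 2 * (K + 1) ^ 2) * d ≤ θ ^ 2 / (4 * k ^ 2 * (K + 1) ^ 2) * (2 * B) := by gcongr
    _ = (θ * X * B) ^ 2 / (2 * (B * (k * ((K + 1) * X)) ^ 2)) := by
        field_simp
        ring
    _ ≤ _ := by gcongr

/-- The number of values of `N` is absorbed. -/
private theorem absorb (K : ℕ) (hK : 2 ≤ K) (m : ℕ) (c2 : ℝ) (hc2 : 0 < c2) :
    ∀ᶠ j : ℕ in atTop, 1 ≤ j ∧ 2 * (K : ℝ) ^ (m * (j + 1) + 1) ≤ Real.exp (c2 * ((K : ℝ) ^ j / j)) := by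
  have hK1 : (1 : ℝ) < K := by exact_mod_cast hK
  have hlim := tendsto_pow_const_div_const_pow_of_one_lt 2 hK1
  have hlog2 : 0 < Real.log 2 := Real.log_pos (by norm_num)
  have hlogK : 0 < Real.log K := Real.log_pos hK1
  set C : ℝ := Real.log 2 + (2 * m + 1) * Real.log K with hC
  have hCpos : 0 < C := by positivity
  have hev := (tendsto_order.mp hlim).2 (c2 / C) (by positivity)
  filter_upwards [hev, eventually_ge_atTop 1] with j hj hj1
  refine ⟨hj1, ?_⟩
  have hj0 : (1 : ℝ) ≤ j := by exact_mod_cast hj1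
  have hKj : (0 : ℝ) < (K : ℝ) ^ j := by positivity
  rw [← Real.log_le_iff_le_exp (by positivity), Real.log_mul (by norm_num) (by positivity), Real.log_pow]
  rw [div_lt_div_iff₀ hKj hCpos] at hj
  have h1 : C * j ≤ c2 * ((K : ℝ) ^ j / j) := by
    rw [← mul_div_assoc, le_div_iff₀ (by linarith)]
    nlinarith
  refine le_trans ?_ h1
  rw [hC]
  push_cast
  have h2 : Real.log 2 ≤ Real.log 2 * j := by nlinarith
  have h3 : ((m : ℝ) * (j + 1) + 1) * Real.log K ≤ (2 * m + 1) * Real.log K * j := by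
    have h4 : (m : ℝ) * (j + 1) + 1 ≤ (2 * m + 1) * j := by
      have : (0 : ℝ) ≤ m := Nat.cast_nonneg m
      nlinarith
    nlinarith
  nlinarith

theorem bad_card (P : Set ℕ) (hP : ∀ p ∈ P, p.Prime) (K : ℕ) (hK : 2 ≤ K) (c : ℝ) (hc : 0 < c)
    (h : ∀ᶠ j : ℕ in atTop, c * (K : ℝ) ^ j / j ≤ ((blk P K j).card : ℝ) ∧
      dep P K j ≤ 2 * (blk P K j).card)
    (m k : ℕ) (hk : 0 < k) (θ : ℝ) (hθ : 0 < θ) :
    ∃ γ : ℝ, 0 < γ ∧ γ < 1 ∧ ∀ (A : Finset ℕ) (w : ℕ → ℝ), A.card = k → (∀ n, |w n| ≤ 1) →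
      ∀ᶠ j : ℕ in atTop, ((bad P K m A w θ j).card : ℝ) ≤ (2 : ℝ) ^ ((1 - γ) * (dep P K j : ℝ)) := by
  classical
  have hK0 : (0 : ℝ) < K := by exact_mod_cast (by omega : 0 < K)
  have hkr : (0 : ℝ) < k := by exact_mod_cast hk
  set c1 : ℝ := θ ^ 2 / (4 * (k : ℝ) ^ 2 * ((K : ℝ) + 1) ^ 2) with hc1
  have hc1pos : 0 < c1 := by positivity
  refine ⟨min (1 / 2) (c1 / 2), lt_min (by norm_num) (by positivity),
    lt_of_le_of_lt (min_le_left _ _) (by norm_num), ?_⟩
  intro A w hA hw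
  have hAne : A.Nonempty := by
    rw [← Finset.card_pos, hA]
    exact hk
  filter_upwards [h, absorb K hK m (c1 / 2 * c) (by positivity)] with j hj hj2
  obtain ⟨hb1, hb2⟩ := hj
  obtain ⟨hj1, hab⟩ := hj2
  have hjr : (0 : ℝ) < j := by exact_mod_cast hj1
  have hKj : (0 : ℝ) < (K : ℝ) ^ j := by positivity
  have hBpos : (0 : ℝ) < ((blk P K j).card : ℝ) := lt_of_lt_of_le (by positivity) hb1
  have hbne : (blk P K j).Nonempty := by
    rw [← Finset.card_pos]
    exact_mod_cast hBpos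
  have hdep : ((blk P K j).card : ℝ) ≤ dep P K j := by exact_mod_cast blk_le_dep P K j
  have hdep2 : (dep P K j : ℝ) ≤ 2 * ((blk P K j).card : ℝ) := by exact_mod_cast hb2
  set d : ℝ := (dep P K j : ℝ) with hd
  -- one value of `N`
  have hone : ∀ N : ℕ, K ^ j ≤ K * N →
      (((Finset.univ : Finset (Fin (dep P K j) → ℤˣ)).filter
        (fun σ => θ * N * (blk P K j).card / (K : ℝ) ^ j ≤ |D P K A w N j (ext σ)|)).card : ℝ) ≤
        2 * 2 ^ (dep P K j) * Real.exp (-(c1 * d)) := by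
    intro N hN
    have hN1 : (K : ℝ) ^ j ≤ K * N := by exact_mod_cast hN
    have hN0 : (0 : ℝ) < N := by
      have : (0 : ℝ) < K * N := lt_of_lt_of_le hKj hN1
      exact (mul_pos_iff_of_pos_left hK0).mp this
    refine (blk_dev P hP K hK A hAne w hw N j hbne _ (by positivity)).trans ?_
    have e1 : θ * N * ((blk P K j).card : ℝ) / (K : ℝ) ^ j = θ * ((N : ℝ) / (K : ℝ) ^ j) * ((blk P K j).card : ℝ) := by
      ring
    rw [e1, hA]
    have e2 := exponent_ge (θ := θ) (B := ((blk P K j).card : ℝ)) (X := (N : ℝ) / (K : ℝ) ^ j) (k := k) (K := K)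
      (d := d) hθ hBpos (by positivity) hkr hK0 (by
        rw [← mul_div_assoc, le_div_iff₀ hKj]
        linarith) hdep2
    have e3 : Real.exp (-((θ * ((N : ℝ) / (K : ℝ) ^ j) * ((blk P K j).card : ℝ)) ^ 2 /
        (2 * (((blk P K j).card : ℝ) * ((k : ℝ) * ((N : ℝ) / (K : ℝ) ^ j + 1)) ^ 2)))) ≤
        Real.exp (-(c1 * d)) := by
      apply Real.exp_le_exp.mpr
      rw [hc1]
      linarith
    gcongr
  -- all values of `N`
  have hsub : bad P K m A w θ j ⊆ (Finset.range (K ^ (m * (j + 1) + 1))).biUnion (fun N =>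
      if K ^ j ≤ K * N then (Finset.univ : Finset (Fin (dep P K j) → ℤˣ)).filter
        (fun σ => θ * N * (blk P K j).card / (K : ℝ) ^ j ≤ |D P K A w N j (ext σ)|) else ∅) := by
    intro σ hσ
    unfold bad at hσ
    rw [Finset.mem_filter] at hσ
    obtain ⟨_, N, h1, h2, h3⟩ := hσ
    rw [Finset.mem_biUnion]
    refine ⟨N, Finset.mem_range.mpr h2, ?_⟩
    rw [if_pos h1, Finset.mem_filter]
    exact ⟨Finset.mem_univ _, h3⟩
  have hcard : ((bad P K m A w θ j).card : ℝ) ≤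
      (K : ℝ) ^ (m * (j + 1) + 1) * (2 * 2 ^ (dep P K j) * Real.exp (-(c1 * d))) := by
    have h1 := (Finset.card_le_card hsub).trans Finset.card_biUnion_le
    have h2 := (Nat.cast_le (α := ℝ)).mpr h1
    refine h2.trans ?_
    rw [Nat.cast_sum]
    refine (Finset.sum_le_card_nsmul _ _ (2 * 2 ^ (dep P K j) * Real.exp (-(c1 * d))) ?_).trans ?_
    · intro N _
      by_cases hN : K ^ j ≤ K * N
      · rw [if_pos hN]
        exact hone N hN
      · rw [if_neg hN, Finset.card_empty, Nat.cast_zero]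
        positivity
    · rw [Finset.card_range, nsmul_eq_mul]
      push_cast
      exact le_refl _
  have habs : 2 * (K : ℝ) ^ (m * (j + 1) + 1) ≤ Real.exp (c1 / 2 * d) := by
    refine hab.trans (Real.exp_le_exp.mpr ?_)
    have h1 : c * ((K : ℝ) ^ j / j) ≤ d := by
      rw [← mul_div_assoc]
      exact hb1.trans hdep
    have h2 : c1 / 2 * (c * ((K : ℝ) ^ j / j)) ≤ c1 / 2 * d := by gcongr
    linarith
  have hd0 : 0 ≤ d := by rw [hd]; exact Nat.cast_nonneg _
  calc ((bad P K m A w θ j).card : ℝ)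
      ≤ (K : ℝ) ^ (m * (j + 1) + 1) * (2 * 2 ^ (dep P K j) * Real.exp (-(c1 * d))) := hcard
    _ = (2 * (K : ℝ) ^ (m * (j + 1) + 1)) * (2 ^ (dep P K j) * Real.exp (-(c1 * d))) := by ring
    _ ≤ Real.exp (c1 / 2 * d) * (2 ^ (dep P K j) * Real.exp (-(c1 * d))) := by gcongr
    _ = 2 ^ (dep P K j) * (Real.exp (c1 / 2 * d) * Real.exp (-(c1 * d))) := by ring
    _ = 2 ^ (dep P K j) * Real.exp (-(c1 / 2 * d)) := by
        rw [← Real.exp_add]
        congr 2
        ring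
    _ ≤ (2 : ℝ) ^ ((1 - min (1 / 2) (c1 / 2)) * d) := by
        have h2 : (2 : ℝ) ^ (dep P K j) = Real.exp (Real.log 2 * d) := by
          rw [← Real.rpow_natCast, Real.rpow_def_of_pos (by norm_num)]
        rw [h2, Real.rpow_def_of_pos (by norm_num), ← Real.exp_add]
        apply Real.exp_le_exp.mpr
        have h3 : min (1 / 2) (c1 / 2) ≤ c1 / 2 := min_le_right _ _
        have h4 : Real.log 2 ≤ 1 := by
          have := Real.log_two_lt_d9
          linarith
        have h5 : 0 < Real.log 2 := Real.log_pos (by norm_num)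
        have h6 : 0 < min (1 / 2) (c1 / 2) := lt_min (by norm_num) (by positivity)
        have h7 : Real.log 2 * min (1 / 2) (c1 / 2) ≤ c1 / 2 := by
          calc Real.log 2 * min (1 / 2) (c1 / 2) ≤ 1 * (c1 / 2) := by
                apply mul_le_mul h4 h3 h6.le (by norm_num)
            _ = c1 / 2 := one_mul _
        have h8 : Real.log 2 * min (1 / 2) (c1 / 2) * d ≤ c1 / 2 * d := mul_le_mul_of_nonneg_right h7 hd0
        have h9 : Real.log 2 * ((1 - min (1 / 2) (c1 / 2)) * d) =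
            Real.log 2 * d - Real.log 2 * min (1 / 2) (c1 / 2) * d := by ring
        linarith

end Pool.Agent.EXD
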