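import Pool.Agent.EXD.Defs

/-!
# EXD-Sq: large square factors are rare

The number of `n ≤ N` such that `∏_{a ∈ A} (n + a)` is divisible by the square of a prime `p > y`
is at most `|A| (N / y + sqrt (N + y))`, when all elements of `A` are at most `y`.
-/

namespace Pool.Agent.EXD

open Pool.Agent.Helper50.FS

open Classical in
private theorem sq_one (N a q : ℕ) (hq : 0 < q) :
    ((Finset.Icc 1 N).filter (fun n => q ∣ n + a)).card ≤ N / q + 1 := by
  have h1 : ((Finset.Icc 1 N).filter (fun n => q ∣ n + a)).card ≤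
      (Finset.Ioc (a / q) ((a + N) / q)).card := by
    refine Finset.card_le_card_of_injOn (fun n => (n + a) / q) ?_ ?_
    · intro n hn
      rw [Finset.mem_coe, Finset.mem_filter, Finset.mem_Icc] at hn
      obtain ⟨⟨h1, h2⟩, c, hc⟩ := hn
      rw [Finset.mem_coe, Finset.mem_Ioc]
      have e : (n + a) / q = c := by rw [hc, Nat.mul_div_cancel_left _ hq]
      simp only [e]
      constructor
      · rw [Nat.div_lt_iff_lt_mul hq, mul_comm, ← hc]
        omega
      · rw [Nat.le_div_iff_mul_le hq, mul_comm, ← hc]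
        omega
    · intro n hn m hm h
      rw [Finset.mem_coe, Finset.mem_filter] at hn hm
      obtain ⟨c, hc⟩ := hn.2
      obtain ⟨d, hd⟩ := hm.2
      simp only [hc, hd, Nat.mul_div_cancel_left _ hq] at h
      rw [h] at hc
      omega
  refine h1.trans ?_
  rw [Nat.card_Ioc]
  have h2 : (a + N) / q ≤ a / q + N / q + 1 := by
    have h3 := Nat.div_add_mod a q
    have h4 := Nat.div_add_mod N q
    have h5 := Nat.mod_lt a hq
    have h6 := Nat.mod_lt N hq
    have h7 : (a + N) / q < a / q + N / q + 2 := by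
      rw [Nat.div_lt_iff_lt_mul hq]
      nlinarith
    exact Nat.lt_succ_iff.mp h7
  exact Nat.sub_le_of_le_add (by linarith)

private theorem sq_dvd_factor (A : Finset ℕ) (y n p : ℕ) (hp : p.Prime) (hy : y < p)
    (hA : ∀ a ∈ A, a ≤ y) (h : p ^ 2 ∣ Z A n) : ∃ a ∈ A, p ^ 2 ∣ n + a := by
  have h1 : p ∣ ∏ a ∈ A, (n + a) := (dvd_pow_self p two_ne_zero).trans h
  obtain ⟨a, ha, hpa⟩ := (Nat.Prime.prime hp).exists_mem_finset_dvd h1
  refine ⟨a, ha, ?_⟩
  have h2 : Z A n = (n + a) * ∏ b ∈ A.erase a, (n + b) := (Finset.mul_prod_erase A _ ha).symm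
  have h3 : Nat.Coprime (p ^ 2) (∏ b ∈ A.erase a, (n + b)) := by
    apply Nat.Coprime.pow_left
    rw [Nat.Prime.coprime_iff_not_dvd hp]
    intro h4
    obtain ⟨b, hb, hpb⟩ := (Nat.Prime.prime hp).exists_mem_finset_dvd h4
    rw [Finset.mem_erase] at hb
    have ha' := hA a ha
    have hb' := hA b hb.2
    rcases lt_or_gt_of_ne hb.1 with hlt | hlt
    · have h5 : p ∣ a - b := by
        have := Nat.dvd_sub hpa hpb
        rwa [Nat.add_sub_add_left] at this
      have := Nat.le_of_dvd (by omega) h5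
      omega
    · have h5 : p ∣ b - a := by
        have := Nat.dvd_sub hpb hpa
        rwa [Nat.add_sub_add_left] at this
      have := Nat.le_of_dvd (by omega) h5
      omega
  rw [h2] at h
  exact h3.dvd_of_dvd_mul_right h

open Classical in
theorem sq_rare (A : Finset ℕ) (y N : ℕ) (hy : 1 ≤ y) (hA : ∀ a ∈ A, a ≤ y) :
    (((Finset.Icc 1 N).filter (fun n => ∃ p : ℕ, p.Prime ∧ y < p ∧ p ^ 2 ∣ Z A n)).card : ℝ) ≤
      A.card * ((N : ℝ) / y + Nat.sqrt (N + y)) := by
  have hsub : (Finset.Icc 1 N).filter (fun n => ∃ p : ℕ, p.Prime ∧ y < p ∧ p ^ 2 ∣ Z A n) ⊆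
      A.biUnion (fun a => (Finset.Ioc y (Nat.sqrt (N + y))).biUnion
        (fun p => (Finset.Icc 1 N).filter (fun n => p ^ 2 ∣ n + a))) := by
    intro n hn
    rw [Finset.mem_filter] at hn
    obtain ⟨hn1, p, hp, hyp, hd⟩ := hn
    obtain ⟨a, ha, hpa⟩ := sq_dvd_factor A y n p hp hyp hA hd
    rw [Finset.mem_biUnion]
    refine ⟨a, ha, ?_⟩
    rw [Finset.mem_biUnion]
    refine ⟨p, ?_, ?_⟩
    · rw [Finset.mem_Ioc]
      refine ⟨hyp, ?_⟩
      rw [Finset.mem_Icc] at hn1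
      have h1 := Nat.le_of_dvd (by omega) hpa
      have h2 := hA a ha
      rw [Nat.le_sqrt']
      omega
    · rw [Finset.mem_filter]
      exact ⟨hn1, hpa⟩
  have hinner : ∀ a ∈ A, ((((Finset.Ioc y (Nat.sqrt (N + y))).biUnion
        (fun p => (Finset.Icc 1 N).filter (fun n => p ^ 2 ∣ n + a))).card : ℕ) : ℝ) ≤
      (N : ℝ) / y + Nat.sqrt (N + y) := by
    intro a _
    have h1 : ((((Finset.Ioc y (Nat.sqrt (N + y))).biUnion
        (fun p => (Finset.Icc 1 N).filter (fun n => p ^ 2 ∣ n + a))).card : ℕ) : ℝ) ≤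
        ∑ p ∈ Finset.Ioc y (Nat.sqrt (N + y)), ((N : ℝ) * ((p : ℝ) ^ 2)⁻¹ + 1) := by
      have h2 : ((((Finset.Ioc y (Nat.sqrt (N + y))).biUnion
        (fun p => (Finset.Icc 1 N).filter (fun n => p ^ 2 ∣ n + a))).card : ℕ) : ℝ) ≤
        ∑ p ∈ Finset.Ioc y (Nat.sqrt (N + y)),
          ((((Finset.Icc 1 N).filter (fun n => p ^ 2 ∣ n + a)).card : ℕ) : ℝ) := by
        have := Finset.card_biUnion_le (s := Finset.Ioc y (Nat.sqrt (N + y)))
          (t := fun p => (Finset.Icc 1 N).filter (fun n => p ^ 2 ∣ n + a))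
        exact_mod_cast this
      refine h2.trans (Finset.sum_le_sum fun p hp => ?_)
      rw [Finset.mem_Ioc] at hp
      have hp0 : 0 < p ^ 2 := by
        have : 0 < p := by omega
        positivity
      have h3 := sq_one N a (p ^ 2) hp0
      have h4 : ((((Finset.Icc 1 N).filter (fun n => p ^ 2 ∣ n + a)).card : ℕ) : ℝ) ≤
          ((N / p ^ 2 : ℕ) : ℝ) + 1 := by exact_mod_cast h3
      have h5 : ((N / p ^ 2 : ℕ) : ℝ) ≤ (N : ℝ) / ((p ^ 2 : ℕ) : ℝ) := Nat.cast_div_le
      rw [Nat.cast_pow, div_eq_mul_inv] at h5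
      linarith
    refine h1.trans ?_
    rw [Finset.sum_add_distrib, ← Finset.mul_sum, Finset.sum_const, Nat.card_Ioc, nsmul_eq_mul,
      mul_one]
    have h6 : (N : ℝ) * ∑ p ∈ Finset.Ioc y (Nat.sqrt (N + y)), ((p : ℝ) ^ 2)⁻¹ ≤ (N : ℝ) / y := by
      rw [div_eq_mul_inv]
      apply mul_le_mul_of_nonneg_left _ (Nat.cast_nonneg N)
      rcases le_total y (Nat.sqrt (N + y)) with h | h
      · have h7 := sum_Ioc_inv_sq_le_sub (α := ℝ) (k := y) (n := Nat.sqrt (N + y)) (by omega) h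
        have h8 : (0 : ℝ) ≤ ((Nat.sqrt (N + y) : ℕ) : ℝ)⁻¹ := by positivity
        linarith
      · rw [Finset.Ioc_eq_empty_of_le h, Finset.sum_empty]
        positivity
    have h9 : ((Nat.sqrt (N + y) - y : ℕ) : ℝ) ≤ (Nat.sqrt (N + y) : ℕ) := by
      exact_mod_cast Nat.sub_le _ _
    linarith
  calc (((Finset.Icc 1 N).filter
          (fun n => ∃ p : ℕ, p.Prime ∧ y < p ∧ p ^ 2 ∣ Z A n)).card : ℝ)
      ≤ ((A.biUnion (fun a => (Finset.Ioc y (Nat.sqrt (N + y))).biUnion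
        (fun p => (Finset.Icc 1 N).filter (fun n => p ^ 2 ∣ n + a)))).card : ℝ) := by
        exact_mod_cast Finset.card_le_card hsub
    _ ≤ ∑ a ∈ A, ((((Finset.Ioc y (Nat.sqrt (N + y))).biUnion
        (fun p => (Finset.Icc 1 N).filter (fun n => p ^ 2 ∣ n + a))).card : ℕ) : ℝ) := by
        have := Finset.card_biUnion_le (s := A)
          (t := fun a => (Finset.Ioc y (Nat.sqrt (N + y))).biUnion
            (fun p => (Finset.Icc 1 N).filter (fun n => p ^ 2 ∣ n + a)))
        exact_mod_cast this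
    _ ≤ ∑ a ∈ A, ((N : ℝ) / y + Nat.sqrt (N + y)) := Finset.sum_le_sum hinner
    _ = A.card * ((N : ℝ) / y + Nat.sqrt (N + y)) := by
        rw [Finset.sum_const, nsmul_eq_mul]

end Pool.Agent.EXD
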