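import Pool.Agent.EXD.TK
import Pool.Agent.EXD.Sq

/-!
# EXD-ErrB: the error set is small

PLAN.  Let `n ∈ [1,N]` be in the set.  Either no `p ∈ P`, `p > y`, divides `Z A n`; then no
`p ∈ Q` divides `n + a` (as `n + a ∣ Z A n`): counted by `tk` with the set `Q`.  Or some `p ∈ P`,
`p > y`, divides `Z A n`; let `p` be the largest element of `P` dividing `Z A n` (`Z A n > 0` has
finitely many divisors), `p > y`; as `Top P (Z A n) p` fails, `p ^ 2 ∣ Z A n`: counted by `sq_rare`.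
-/

namespace Pool.Agent.EXD

open Pool.Agent.Helper50.FS

open Classical in
theorem err_le (P : Set ℕ) (hP : ∀ p ∈ P, p.Prime) (A : Finset ℕ) (hA0 : A.Nonempty) (N y : ℕ)
    (hy : 1 ≤ y) (hA : ∀ a ∈ A, a ≤ y) (Q : Finset ℕ) (hQ : ∀ p ∈ Q, p ∈ P ∧ y < p)
    (hN : Q.card ^ 2 ≤ N) (M : ℝ) (hM1 : 1 ≤ M) (hM : M ≤ ∑ p ∈ Q, (1 / (p : ℝ))) :
    (((Finset.Icc 1 N).filter (fun n => ¬ ∃ p, y < p ∧ Top P (Z A n) p)).card : ℝ) ≤
      5 * N / M + A.card * ((N : ℝ) / y + Nat.sqrt (N + y)) := by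
  obtain ⟨a0, ha0⟩ := hA0
  have hsub : (Finset.Icc 1 N).filter (fun n => ¬ ∃ p, y < p ∧ Top P (Z A n) p) ⊆
      (Finset.Icc 1 N).filter (fun n => ∀ p ∈ Q, ¬ p ∣ n + a0) ∪
      (Finset.Icc 1 N).filter (fun n => ∃ p : ℕ, p.Prime ∧ y < p ∧ p ^ 2 ∣ Z A n) := by
    intro n hn
    rw [Finset.mem_filter] at hn
    obtain ⟨hn1, hn2⟩ := hn
    have hnpos : 1 ≤ n := (Finset.mem_Icc.1 hn1).1
    have hZ : Z A n ≠ 0 := by
      unfold Z
      rw [Finset.prod_ne_zero_iff]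
      intro a _
      omega
    by_cases hex : ∃ p ∈ P, y < p ∧ p ∣ Z A n
    · apply Finset.mem_union_right
      rw [Finset.mem_filter]
      refine ⟨hn1, ?_⟩
      set W : Finset ℕ := (Z A n).divisors.filter (fun p => p ∈ P ∧ y < p) with hW
      have hWne : W.Nonempty := by
        obtain ⟨p, hp, hyp, hpd⟩ := hex
        exact ⟨p, by rw [hW, Finset.mem_filter]; exact ⟨Nat.mem_divisors.2 ⟨hpd, hZ⟩, hp, hyp⟩⟩
      have hmem := Finset.max'_mem W hWne
      set p := W.max' hWne with hpdef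
      rw [hW, Finset.mem_filter, Nat.mem_divisors] at hmem
      obtain ⟨⟨hpd, _⟩, hpP, hyp⟩ := hmem
      refine ⟨p, hP p hpP, hyp, ?_⟩
      by_contra hsq
      apply hn2
      refine ⟨p, hyp, hpP, hpd, hsq, ?_⟩
      intro q hq hqd
      by_contra hlt
      push Not at hlt
      have hqW : q ∈ W := by
        rw [hW, Finset.mem_filter]
        exact ⟨Nat.mem_divisors.2 ⟨hqd, hZ⟩, hq, by omega⟩
      have := Finset.le_max' W q hqW
      omega
    · apply Finset.mem_union_left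
      rw [Finset.mem_filter]
      refine ⟨hn1, ?_⟩
      intro p hp hpd
      apply hex
      refine ⟨p, (hQ p hp).1, (hQ p hp).2, hpd.trans ?_⟩
      exact Finset.dvd_prod_of_mem (fun a => n + a) ha0
  have h1 : (((Finset.Icc 1 N).filter (fun n => ∀ p ∈ Q, ¬ p ∣ n + a0)).card : ℝ) ≤ 5 * N / M := by
    have h2 := tk Q (fun p hp => hP p (hQ p hp).1) a0 N hN (∑ p ∈ Q, (1 / (p : ℝ))) rfl
      (hM1.trans hM)
    refine h2.trans ?_
    have hMpos : 0 < M := by linarith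
    exact div_le_div_of_nonneg_left (by positivity) hMpos hM
  have h2 := sq_rare A y N hy hA
  calc (((Finset.Icc 1 N).filter (fun n => ¬ ∃ p, y < p ∧ Top P (Z A n) p)).card : ℝ)
      ≤ (((Finset.Icc 1 N).filter (fun n => ∀ p ∈ Q, ¬ p ∣ n + a0) ∪
      (Finset.Icc 1 N).filter (fun n => ∃ p : ℕ, p.Prime ∧ y < p ∧ p ^ 2 ∣ Z A n)).card : ℝ) := by
        exact_mod_cast Finset.card_le_card hsub
    _ ≤ (((Finset.Icc 1 N).filter (fun n => ∀ p ∈ Q, ¬ p ∣ n + a0)).card : ℝ) +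
      (((Finset.Icc 1 N).filter (fun n => ∃ p : ℕ, p.Prime ∧ y < p ∧ p ^ 2 ∣ Z A n)).card : ℝ) := by
        exact_mod_cast Finset.card_union_le _ _
    _ ≤ _ := add_le_add h1 h2

end Pool.Agent.EXD
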