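import Pool.Agent.EXD.Defs

/-!
# EXD-Mass: many small divisors

If every large window `(K^j, K^(j+1)]` contains at least `c K^j / j` elements of `P`, the harmonic
sum of `P` over the windows between `J / m` and `J / 2` is large.
-/

open Filter Topology

namespace Pool.Agent.EXD

open Pool.Agent.Helper50.FS

private theorem log_le_harm (a : ℕ) (ha : 1 ≤ a) (b : ℕ) (hab : a ≤ b) :
    Real.log ((b : ℝ) / a) ≤ ∑ i ∈ Finset.Ico a b, (1 / (i : ℝ)) := by
  have ha0 : (0 : ℝ) < a := by exact_mod_cast ha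
  induction b, hab using Nat.le_induction with
  | base => simp [div_self ha0.ne']
  | succ b hb ih =>
    have hb0 : (0 : ℝ) < b := by exact_mod_cast (lt_of_lt_of_le ha hb)
    rw [Finset.sum_Ico_succ_top hb]
    have e : ((b + 1 : ℕ) : ℝ) / a = (b : ℝ) / a * (1 + 1 / b) := by
      push_cast
      field_simp
    have h1 : (0 : ℝ) < 1 + 1 / b := by positivity
    rw [e, Real.log_mul (by positivity) h1.ne']
    have h2 : Real.log (1 + 1 / (b : ℝ)) ≤ 1 / b := by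
      have := Real.log_le_sub_one_of_pos h1
      linarith
    linarith

private theorem blk_sum (P : Set ℕ) (K : ℕ) (c : ℝ) (hK : 2 ≤ K) {j : ℕ} (hj : 1 ≤ j)
    (h : c * (K : ℝ) ^ j / j ≤ ((blk P K j).card : ℝ)) :
    c / K * (1 / (j : ℝ)) ≤ ∑ p ∈ blk P K j, (1 / (p : ℝ)) := by
  have hK0 : (0 : ℝ) < K := by
    have : 0 < K := by omega
    exact_mod_cast this
  have hj0 : (0 : ℝ) < j := by exact_mod_cast hj
  have h1 : ((blk P K j).card : ℝ) * (1 / (K : ℝ) ^ (j + 1)) ≤ ∑ p ∈ blk P K j, (1 / (p : ℝ)) := by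
    rw [← nsmul_eq_mul]
    apply Finset.card_nsmul_le_sum
    intro p hp
    classical
    unfold blk at hp
    obtain ⟨hp1, _⟩ := Finset.mem_filter.1 hp
    obtain ⟨hp2, hp3⟩ := Finset.mem_Ioc.1 hp1
    have hp0 : (0 : ℝ) < p := by
      have : 0 < p := lt_of_le_of_lt (Nat.zero_le _) hp2
      exact_mod_cast this
    apply one_div_le_one_div_of_le hp0
    exact_mod_cast hp3
  refine le_trans ?_ h1
  have h2 : c * (K : ℝ) ^ j / j * (1 / (K : ℝ) ^ (j + 1)) ≤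
      ((blk P K j).card : ℝ) * (1 / (K : ℝ) ^ (j + 1)) :=
    mul_le_mul_of_nonneg_right h (by positivity)
  refine le_trans (le_of_eq ?_) h2
  rw [pow_succ]
  field_simp

theorem mass_large (P : Set ℕ) (K : ℕ) (c : ℝ) (hK : 2 ≤ K) (hc : 0 < c)
    (h : ∀ᶠ j : ℕ in atTop, c * (K : ℝ) ^ j / j ≤ ((blk P K j).card : ℝ)) (M : ℝ) :
    ∃ m : ℕ, 3 ≤ m ∧ ∀ᶠ J : ℕ in atTop,
      M ≤ ∑ j ∈ Finset.Ico (J / m) (J / 2), ∑ p ∈ blk P K j, (1 / (p : ℝ)) := by
  have hK0 : (0 : ℝ) < K := by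
    have : 0 < K := by omega
    exact_mod_cast this
  obtain ⟨j₀, hj₀⟩ := eventually_atTop.1 h
  obtain ⟨m₀, hm₀⟩ := exists_nat_ge (4 * Real.exp (M * K / c))
  refine ⟨max m₀ 4, le_trans (by norm_num) (le_max_right _ _), ?_⟩
  generalize hm : max m₀ 4 = m
  have hm4 : 4 ≤ m := by rw [← hm]; exact le_max_right _ _
  have hmr : 4 * Real.exp (M * K / c) ≤ (m : ℝ) := by
    refine hm₀.trans ?_
    rw [← hm]
    exact_mod_cast le_max_left _ _
  have hm0 : (0 : ℝ) < m := by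
    have : 0 < m := by omega
    exact_mod_cast this
  filter_upwards [eventually_ge_atTop (m * (j₀ + 1)), eventually_ge_atTop 4] with J hJ hJ4
  have ha : j₀ + 1 ≤ J / m := by
    rw [Nat.le_div_iff_mul_le (by omega), mul_comm]
    exact hJ
  have hab : J / m ≤ J / 2 := Nat.div_le_div_left (by omega) (by norm_num)
  have h1 : Real.log (((J / 2 : ℕ) : ℝ) / ((J / m : ℕ) : ℝ)) ≤
      ∑ i ∈ Finset.Ico (J / m) (J / 2), (1 / (i : ℝ)) :=
    log_le_harm (J / m) (by omega) (J / 2) hab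
  have hJ0 : (0 : ℝ) < J := by
    have : 0 < J := by omega
    exact_mod_cast this
  have ha0 : (0 : ℝ) < ((J / m : ℕ) : ℝ) := by
    have : 0 < J / m := by omega
    exact_mod_cast this
  have h2 : (J : ℝ) / 4 ≤ ((J / 2 : ℕ) : ℝ) := by
    have h3 : J ≤ 4 * (J / 2) := by omega
    have h4 : (J : ℝ) ≤ 4 * ((J / 2 : ℕ) : ℝ) := by exact_mod_cast h3
    linarith
  have h3 : ((J / m : ℕ) : ℝ) ≤ (J : ℝ) / m := Nat.cast_div_le
  have h4 : (m : ℝ) / 4 ≤ ((J / 2 : ℕ) : ℝ) / ((J / m : ℕ) : ℝ) := by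
    rw [le_div_iff₀ ha0]
    calc (m : ℝ) / 4 * ((J / m : ℕ) : ℝ) ≤ (m : ℝ) / 4 * ((J : ℝ) / m) :=
          mul_le_mul_of_nonneg_left h3 (by positivity)
      _ = (J : ℝ) / 4 := by field_simp
      _ ≤ _ := h2
  have h5 : M * K / c ≤ Real.log (((J / 2 : ℕ) : ℝ) / ((J / m : ℕ) : ℝ)) := by
    rw [Real.le_log_iff_exp_le (lt_of_lt_of_le (by positivity) h4)]
    refine le_trans ?_ h4
    linarith
  have h6 : ∑ j ∈ Finset.Ico (J / m) (J / 2), (c / K * (1 / (j : ℝ))) ≤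
      ∑ j ∈ Finset.Ico (J / m) (J / 2), ∑ p ∈ blk P K j, (1 / (p : ℝ)) := by
    apply Finset.sum_le_sum
    intro j hj
    have hj1 := (Finset.mem_Ico.1 hj).1
    exact blk_sum P K c hK (by omega) (hj₀ j (by omega))
  refine le_trans ?_ h6
  rw [← Finset.mul_sum]
  have h7 : M = c / K * (M * K / c) := by field_simp
  calc M = c / K * (M * K / c) := h7
    _ ≤ c / K * ∑ i ∈ Finset.Ico (J / m) (J / 2), (1 / (i : ℝ)) :=
      mul_le_mul_of_nonneg_left (h5.trans h1) (by positivity)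

end Pool.Agent.EXD
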