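import Pool.Agent.EXD.Win
import Pool.Agent.EXD.Mass
import Pool.Agent.EXD.ErrB
import Pool.Agent.EXD.Cnt
import Pool.Agent.EXD.Blocks

/-!
# EXD-Core: the core theorem

Assembly of the windows (`win`), the many small divisors (`mass_large`), the few bad patterns (`bad_card`), the decomposition by
the largest prime (`dec`, `err_le`) and the bookkeeping of the windows (`sum_blocks`, `weights`, `card_small`).
-/

open Filter Topology

namespace Pool.Agent.EXD

open Pool.Agent.Helper50.FS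

private theorem core_dep (P : Set ℕ) (K j : ℕ) : (blk P K j).card ≤ dep P K j := by
  classical
  unfold dep
  refine Finset.card_le_card fun p hp => ?_
  unfold blk at hp
  rw [Finset.mem_filter, Finset.mem_Ioc] at hp
  unfold upTo
  simp only [Finset.mem_filter, Finset.mem_Icc]
  exact ⟨⟨by have := hp.1.1; omega, hp.1.2⟩, hp.2⟩

private theorem core_grow (K : ℕ) (hK : 2 ≤ K) (c : ℝ) (hc : 0 < c) :
    ∀ᶠ j : ℕ in atTop, (j : ℝ) ≤ c * (K : ℝ) ^ j / j := by
  have h1 : Tendsto (fun n : ℕ => (n : ℝ) ^ 2 / (K : ℝ) ^ n) atTop (𝓝 0) :=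
    tendsto_pow_const_div_const_pow_of_one_lt 2 (by exact_mod_cast hK)
  filter_upwards [h1.eventually_lt_const hc, eventually_gt_atTop 0] with j hj hj0
  have hj0' : (0 : ℝ) < j := by exact_mod_cast hj0
  have hKj : (0 : ℝ) < (K : ℝ) ^ j := by positivity
  rw [div_lt_iff₀ hKj] at hj
  rw [le_div_iff₀ hj0']
  nlinarith

private theorem core_err (k : ℕ) (hk : 0 < k) (ε : ℝ) (hε : 0 < ε) :
    ∀ᶠ N : ℕ in atTop, ∀ y : ℕ, (8 * k / ε ≤ y) → y ≤ N →
      (k : ℝ) * ((N : ℝ) / y + Nat.sqrt (N + y)) ≤ ε / 4 * N := by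
  filter_upwards [eventually_ge_atTop (⌈128 * (k : ℝ) ^ 2 / ε ^ 2⌉₊), eventually_gt_atTop 0]
    with N hN hN0 y hy hyN
  have hk' : (0 : ℝ) < k := by exact_mod_cast hk
  have hN0' : (0 : ℝ) < N := by exact_mod_cast hN0
  have hN' : 128 * (k : ℝ) ^ 2 / ε ^ 2 ≤ N := Nat.ceil_le.1 hN
  have hy0 : (0 : ℝ) < y := lt_of_lt_of_le (by positivity) hy
  have h1 : (k : ℝ) * ((N : ℝ) / y) ≤ ε / 8 * N := by
    rw [← mul_div_assoc, div_le_iff₀ hy0]
    rw [div_le_iff₀ hε] at hy
    nlinarith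
  have h2 : ((Nat.sqrt (N + y) : ℕ) : ℝ) ^ 2 ≤ 2 * N := by
    have h3 : (Nat.sqrt (N + y)) ^ 2 ≤ N + y := Nat.sqrt_le' _
    have h4 : (((Nat.sqrt (N + y)) ^ 2 : ℕ) : ℝ) ≤ ((N + y : ℕ) : ℝ) := by exact_mod_cast h3
    push_cast at h4
    have h5 : (y : ℝ) ≤ N := by exact_mod_cast hyN
    linarith
  have h3 : (k : ℝ) * Nat.sqrt (N + y) ≤ ε / 8 * N := by
    have h4 : ((k : ℝ) * Nat.sqrt (N + y)) ^ 2 ≤ (ε / 8 * N) ^ 2 := by
      rw [div_le_iff₀ (by positivity)] at hN'
      have h5 : ((k : ℝ) * Nat.sqrt (N + y)) ^ 2 ≤ (k : ℝ) ^ 2 * (2 * N) := by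
        rw [mul_pow]
        exact mul_le_mul_of_nonneg_left h2 (by positivity)
      refine h5.trans ?_
      have h6 : (ε / 8 * N) ^ 2 = (N * ε ^ 2) * N / 64 := by ring
      rw [h6]
      have h7 : 128 * (k : ℝ) ^ 2 * N ≤ (N * ε ^ 2) * N := mul_le_mul_of_nonneg_right hN' hN0'.le
      linarith
    exact le_of_sq_le_sq h4 (by positivity)
  rw [mul_add]
  linarith

theorem core (P : Set ℕ) (hP : RelDense P) (k : ℕ) (hk : 0 < k) (ε : ℝ) (hε : 0 < ε) :
    ∃ (γ : ℝ) (d : ℕ → ℕ), 0 < γ ∧ γ < 1 ∧ (∀ᶠ j : ℕ in atTop, j ≤ d j) ∧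
      ∀ (A : Finset ℕ) (w : ℕ → ℝ), A.card = k → (∀ n, |w n| ≤ 1) →
      ∃ B : ∀ j, Finset (Fin (d j) → ℤˣ),
        (∀ᶠ j : ℕ in atTop, ((B j).card : ℝ) ≤ (2 : ℝ) ^ ((1 - γ) * (d j : ℝ))) ∧
        ∀ r : ℕ → ℤˣ, (∀ᶠ j : ℕ in atTop, res (d j) r ∉ B j) →
          ∀ᶠ N : ℕ in atTop, |S P A w N r| ≤ ε * N := by
  classical
  have hPp := hP.1
  obtain ⟨K, c, C, hK, hc, hC, hwin⟩ := win P hP
  set M : ℝ := max 1 (20 / ε) with hM
  have hM1 : 1 ≤ M := le_max_left _ _
  have hM2 : 20 / ε ≤ M := le_max_right _ _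
  have hM0 : 0 < M := lt_of_lt_of_le one_pos hM1
  obtain ⟨m, hm, hmass⟩ := mass_large P K c hK hc (hwin.mono fun j h => h.1) M
  have hm0 : (0 : ℝ) < m := by
    have : 0 < m := by omega
    exact_mod_cast this
  set W : ℝ := 6 * m * C with hW
  have hW0 : 0 < W := by positivity
  set θ : ℝ := ε / (2 * W) with hθ
  have hθ0 : 0 < θ := by positivity
  obtain ⟨γ, hγ0, hγ1, hbad⟩ := bad_card P hPp K hK c hc
    (hwin.mono fun j h => ⟨h.1, h.2.2⟩) m k hk θ hθ0
  refine ⟨γ, fun j => dep P K j, hγ0, hγ1, ?_, ?_⟩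
  · filter_upwards [hwin, core_grow K hK c hc] with j h1 h2
    have h3 : (j : ℝ) ≤ ((blk P K j).card : ℝ) := h2.trans h1.1
    have h4 : j ≤ (blk P K j).card := by exact_mod_cast h3
    exact h4.trans (core_dep P K j)
  · intro A w hAk hw
    refine ⟨fun j => bad P K m A w θ j, hbad A w hAk hw, ?_⟩
    intro r hr
    have hA0 : A.Nonempty := by
      rw [← Finset.card_pos]
      omega
    obtain ⟨a0, ha0⟩ : ∃ a0 : ℕ, ∀ a ∈ A, a ≤ a0 := ⟨A.sup id, fun a ha => Finset.le_sup (f := id) ha⟩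
    have hK1 : 1 < K := by omega
    have hlog : Tendsto (fun N : ℕ => Nat.log K N) atTop atTop := by
      refine tendsto_atTop.2 fun b => ?_
      filter_upwards [eventually_ge_atTop (K ^ b)] with N hN
      exact (Nat.le_log_iff_pow_le hK1 (by have : 0 < K ^ b := by positivity
                                           omega)).2 hN
    have hdiv : Tendsto (fun J : ℕ => J / m) atTop atTop := by
      refine tendsto_atTop.2 fun b => ?_
      filter_upwards [eventually_ge_atTop (b * m)] with J hJ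
      exact (Nat.le_div_iff_mul_le (by omega)).2 hJ
    obtain ⟨j1, hj1⟩ := eventually_atTop.1 hr
    have hy : ∀ᶠ j : ℕ in atTop, max a0 ⌈8 * (k : ℝ) / ε⌉₊ ≤ K ^ j :=
      (tendsto_pow_atTop_atTop_of_one_lt hK1).eventually_ge_atTop _
    filter_upwards [hlog.eventually hmass, hlog.eventually (weights P K hK C hC
      (hwin.mono fun j h => h.2.1) m hm), core_err k hk ε hε, (hdiv.comp hlog).eventually hy,
      (hdiv.comp hlog).eventually_ge_atTop j1, eventually_gt_atTop 0,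
      eventually_ge_atTop a0] with N hmassN hwN herr hyN hj0 hN0 hNa
    simp only [Function.comp] at hyN hj0
    set J : ℕ := Nat.log K N with hJ
    set y : ℕ := K ^ (J / m) with hydef
    have hKJ : K ^ J ≤ N := Nat.pow_log_le_self K (by omega)
    have hKJ1 : N < K ^ (J + 1) := Nat.lt_pow_succ_log_self hK1 N
    have hjJ : J / m ≤ J := Nat.div_le_self _ _
    have hyN' : y ≤ N := (Nat.pow_le_pow_right (by omega) hjJ).trans hKJ
    have hJm2 : J / m ≤ J / 2 := Nat.div_le_div_left (by omega) (by omega)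
    have hB : ∀ a ∈ A, N + a ≤ K ^ (J + 2) := by
      intro a ha
      have h1 := ha0 a ha
      have h2 : K ^ (J + 2) = K ^ (J + 1) * K := by rw [pow_succ]
      have h3 : K ^ (J + 1) * 2 ≤ K ^ (J + 1) * K := Nat.mul_le_mul_left _ hK
      omega
    have hdec := dec P hPp A w hw N y (K ^ (J + 2)) hB r
    have hyA : ∀ a ∈ A, a ≤ y := fun a ha => (ha0 a ha).trans ((le_max_left _ _).trans hyN)
    have hy1 : 1 ≤ y := Nat.one_le_pow _ _ (by omega)
    have hQ := err_le P hPp A hA0 N y hy1 hyA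
      ((Finset.Ioc (K ^ (J / m)) (K ^ (J / 2))).filter (fun p => p ∈ P))
      (fun p hp => by
        rw [Finset.mem_filter, Finset.mem_Ioc] at hp
        exact ⟨hp.2, hp.1.1⟩)
      ((card_small P K hK (J / m) J).trans hKJ) M hM1
      (by
        rw [sum_blocks P K hK (fun p => 1 / (p : ℝ)) (J / m) (J / 2) hJm2]
        exact hmassN)
    have hsum : ∑ p ∈ (Finset.Ioc y (K ^ (J + 2))).filter (fun p => p ∈ P),
        sg (r (idx P p)) * Y P A w N p r = ∑ j ∈ Finset.Ico (J / m) (J + 2), D P K A w N j r := by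
      rw [sum_blocks P K hK (fun p => sg (r (idx P p)) * Y P A w N p r) (J / m) (J + 2) (by omega)]
      rfl
    rw [hsum] at hdec
    have hD : ∀ j ∈ Finset.Ico (J / m) (J + 2),
        |D P K A w N j r| ≤ θ * N * (((blk P K j).card : ℝ) / (K : ℝ) ^ j) := by
      intro j hj
      rw [Finset.mem_Ico] at hj
      have h1 := hj1 j (hj0.trans hj.1)
      by_contra hcon
      push Not at hcon
      apply h1
      unfold bad
      rw [Finset.mem_filter]
      refine ⟨Finset.mem_univ _, N, ?_, ?_, ?_⟩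
      · have h2 : K ^ j ≤ K ^ (J + 1) := Nat.pow_le_pow_right (by omega) (by omega)
        have h3 : K ^ (J + 1) = K * K ^ J := by rw [pow_succ]; ring
        rw [h3] at h2
        exact h2.trans (Nat.mul_le_mul_left _ hKJ)
      · refine hKJ1.trans_le (Nat.pow_le_pow_right (by omega) ?_)
        have h2 : J < m * (J / m + 1) := Nat.lt_mul_div_succ J (by omega)
        have h3 : m * (J / m + 1) ≤ m * (j + 1) := Nat.mul_le_mul_left _ (by omega)
        omega
      · rw [D_res P hPp]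
        have h4 : θ * N * (blk P K j).card / (K : ℝ) ^ j =
            θ * N * (((blk P K j).card : ℝ) / (K : ℝ) ^ j) := by ring
        rw [h4]
        exact hcon.le
    have hDsum : |∑ j ∈ Finset.Ico (J / m) (J + 2), D P K A w N j r| ≤ ε / 2 * N := by
      refine (Finset.abs_sum_le_sum_abs _ _).trans ((Finset.sum_le_sum hD).trans ?_)
      rw [← Finset.mul_sum]
      have h1 : (0 : ℝ) ≤ θ * N := by positivity
      refine (mul_le_mul_of_nonneg_left hwN h1).trans (le_of_eq ?_)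
      rw [hθ, hW]
      have : (6 * (m : ℝ) * C) ≠ 0 := hW0.ne'
      field_simp
    have hyr : 8 * (k : ℝ) / ε ≤ y := by
      have h1 : ⌈8 * (k : ℝ) / ε⌉₊ ≤ y := (le_max_right _ _).trans hyN
      exact Nat.ceil_le.1 h1
    have herr' := herr y hyr hyN'
    have hMN : 5 * (N : ℝ) / M ≤ ε / 4 * N := by
      rw [div_le_iff₀ hM0]
      have h1 : (20 : ℝ) ≤ M * ε := by
        rwa [div_le_iff₀ hε] at hM2
      have h2 : (0 : ℝ) ≤ N := by positivity
      nlinarith
    rw [hAk] at hQ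
    have h5 : |S P A w N r| ≤ |S P A w N r - ∑ j ∈ Finset.Ico (J / m) (J + 2), D P K A w N j r| +
        |∑ j ∈ Finset.Ico (J / m) (J + 2), D P K A w N j r| := by
      have := abs_add_le (S P A w N r - ∑ j ∈ Finset.Ico (J / m) (J + 2), D P K A w N j r)
        (∑ j ∈ Finset.Ico (J / m) (J + 2), D P K A w N j r)
      rwa [sub_add_cancel] at this
    linarith

end Pool.Agent.EXD
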