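import Pool.Agent.Helper50.FS.Defs

/-!
# Project EXD (MP_a4fdfa_an): the exceptional set of random sign changes has small dimension

Architect helper54.  Definitions.
-/

open Filter Topology MeasureTheory

namespace Pool.Agent.EXD

open Pool.Agent.Helper50.FS

/-- `P` consists of primes and has positive lower density relative to the set of all primes. -/
def RelDense (P : Set ℕ) : Prop :=
  (∀ p ∈ P, p.Prime) ∧
    ∃ c : ℝ, 0 < c ∧ ∀ᶠ x : ℕ in atTop, c * (Nat.primeCounting x : ℝ) ≤ ((upTo P x).card : ℝ)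

open Classical in
/-- The number of elements of `P` below `p`. -/
noncomputable def idx (P : Set ℕ) (p : ℕ) : ℕ := ((Finset.range p).filter (fun q => q ∈ P)).card

/-- The space `{-1,1}^ℕ` of sign sequences. -/
def Sgn : Type := ℕ → ℤˣ

/-- The metric of `Sgn`: `dist x y = 2^{-n}` where `n` is the first index with `x n ≠ y n`. -/
noncomputable instance : MetricSpace Sgn := PiNat.metricSpace (E := fun _ : ℕ => ℤˣ)

/-- `u` multiplied by the completely multiplicative function whose value at the `i`-th element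
of `P` is `r i` (the elements of `P` are numbered `0, 1, 2, ...` in increasing order) and whose
value at the primes outside `P` is `1`. -/
noncomputable def tw (P : Set ℕ) (u : ℕ → ℤˣ) (r : ℕ → ℤˣ) : ℕ → ℤˣ :=
  twist P u (fun p => r (idx P p))

/-- The completely multiplicative function whose value at the `i`-th element
of `P` is `r i` and whose value at the primes outside `P` is `1`. -/
noncomputable def cm (P : Set ℕ) (r : ℕ → ℤˣ) : ℕ → ℤˣ := tw P (fun _ => 1) r

/-- The product of the numbers `n + a`, `a ∈ A`. -/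
def Z (A : Finset ℕ) (n : ℕ) : ℕ := ∏ a ∈ A, (n + a)

/-- `p` is the largest element of `P` dividing `m`, and `p ^ 2` does not divide `m`. -/
def Top (P : Set ℕ) (m p : ℕ) : Prop := p ∈ P ∧ p ∣ m ∧ ¬ p ^ 2 ∣ m ∧ ∀ q ∈ P, q ∣ m → q ≤ p

open Classical in
/-- The coefficient of the sign `r (idx P p)`. -/
noncomputable def Y (P : Set ℕ) (A : Finset ℕ) (w : ℕ → ℝ) (N p : ℕ) (r : ℕ → ℤˣ) : ℝ :=
  ∑ n ∈ (Finset.Icc 1 N).filter (fun n => Top P (Z A n) p), w n * sg (cm P r (Z A n / p))

/-- The weighted sum of the products `∏_{a ∈ A} g(n + a)`, `g = cm P r`. -/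
noncomputable def S (P : Set ℕ) (A : Finset ℕ) (w : ℕ → ℝ) (N : ℕ) (r : ℕ → ℤˣ) : ℝ :=
  ∑ n ∈ Finset.Icc 1 N, w n * ∏ a ∈ A, sg (cm P r (n + a))

open Classical in
/-- The elements of `P` in the window `(K^j, K^(j+1)]`. -/
noncomputable def blk (P : Set ℕ) (K j : ℕ) : Finset ℕ :=
  (Finset.Ioc (K ^ j) (K ^ (j + 1))).filter (fun p => p ∈ P)

/-- The number of elements of `P` up to `K^(j+1)`. -/
noncomputable def dep (P : Set ℕ) (K j : ℕ) : ℕ := (upTo P (K ^ (j + 1))).card

/-- The part of the sum `S` that comes from the window `j`. -/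
noncomputable def D (P : Set ℕ) (K : ℕ) (A : Finset ℕ) (w : ℕ → ℝ) (N j : ℕ) (r : ℕ → ℤˣ) : ℝ :=
  ∑ p ∈ blk P K j, sg (r (idx P p)) * Y P A w N p r

/-- A finite pattern, extended by `1`. -/
def ext {d : ℕ} (σ : Fin d → ℤˣ) : ℕ → ℤˣ := fun i => if h : i < d then σ ⟨i, h⟩ else 1

/-- The first `d` signs. -/
def res (d : ℕ) (r : ℕ → ℤˣ) : Fin d → ℤˣ := fun i => r i

/-- Measures on sign sequences of asymptotically full entropy: the cylinders of depth `d` have
measure at most `2^{-(1 - κ d) d}`, where `κ d → 0`. -/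
def HighEnt (μ : Measure (ℕ → ℤˣ)) : Prop :=
  ∃ κ : ℕ → ℝ, Tendsto κ atTop (𝓝 0) ∧ ∀ (d : ℕ) (σ : Fin d → ℤˣ),
    μ {r | res d r = σ} ≤ ENNReal.ofReal ((2 : ℝ) ^ (-(1 - κ d) * d))

end Pool.Agent.EXD
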