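import Pool.Agent.EXD.Defs

/-!
# EXD-Haus: dimension of a limsup of cylinders (Defs only)

The set of the sequences which lie in infinitely many of the sets `B j` of cylinders of depth
`d j ≥ j`, where `B j` has at most `2 ^ ((1 - γ) d j)` elements, has Hausdorff dimension at most
`1 - γ` (cover by all the cylinders of index at least `n`).
-/

open Filter Topology MeasureTheory

namespace Pool.Agent.EXD

open Pool.Agent.Helper50.FS

private lemma dist_le_of_res {D : ℕ} {x y : Sgn} {σ : Fin D → ℤˣ} (hx : res D x = σ)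
    (hy : res D y = σ) : dist x y ≤ (1 / 2 : ℝ) ^ D := by
  exact PiNat.mem_cylinder_iff_dist_le.mp (PiNat.mem_cylinder_iff.mpr fun i hi =>
    (congrFun hx ⟨i, hi⟩).trans (congrFun hy ⟨i, hi⟩).symm)

private lemma ediam_cyl {D : ℕ} (σ : Fin D → ℤˣ) :
    Metric.ediam {r : Sgn | res D r = σ} ≤ ENNReal.ofReal ((1 / 2 : ℝ) ^ D) := by
  refine Metric.ediam_le fun x hx y hy => ?_
  rw [edist_dist]
  exact ENNReal.ofReal_le_ofReal (dist_le_of_res hx hy)

private lemma ediam_cyl_rpow {D : ℕ} (σ : Fin D → ℤˣ) {s : ℝ} (hs : 0 ≤ s) :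
    Metric.ediam {r : Sgn | res D r = σ} ^ s ≤ ENNReal.ofReal ((2 : ℝ) ^ (-(s * D))) := by
  refine (ENNReal.rpow_le_rpow (ediam_cyl σ) hs).trans ?_
  rw [ENNReal.ofReal_rpow_of_nonneg (by positivity) hs]
  refine ENNReal.ofReal_le_ofReal (le_of_eq ?_)
  rw [one_div, ← Real.rpow_natCast, Real.inv_rpow (by norm_num), Real.inv_rpow (by positivity),
    ← Real.rpow_mul (by norm_num), Real.rpow_neg (by norm_num), mul_comm]

theorem dimH_limsup (d : ℕ → ℕ) (hd : ∀ᶠ j : ℕ in atTop, j ≤ d j)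
    (B : ∀ j, Finset (Fin (d j) → ℤˣ)) (γ : ℝ) (h0 : 0 < γ) (h1 : γ < 1)
    (hB : ∀ᶠ j : ℕ in atTop, ((B j).card : ℝ) ≤ (2 : ℝ) ^ ((1 - γ) * (d j : ℝ))) :
    dimH {r : Sgn | ∃ᶠ j : ℕ in atTop, res (d j) r ∈ B j} ≤ ENNReal.ofReal (1 - γ) := by
  borelize Sgn
  obtain ⟨N0, hN0⟩ := eventually_atTop.mp (hd.and hB)
  refine dimH_le fun s hs => ?_
  by_contra hlt
  rw [not_le] at hlt
  have hsr : 1 - γ < (s : ℝ) := by
    rw [ENNReal.ofReal, ENNReal.coe_lt_coe] at hlt
    exact (Real.toNNReal_lt_iff_lt_coe (by linarith)).mp hlt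
  set δ : ℝ := (s : ℝ) - (1 - γ) with hδ
  have hδ0 : 0 < δ := by rw [hδ]; linarith
  set a : ENNReal := ENNReal.ofReal ((2 : ℝ) ^ (-δ)) with ha
  have ha1 : a < 1 := by
    rw [ha, ENNReal.ofReal_lt_one]
    exact Real.rpow_lt_one_of_one_lt_of_neg (by norm_num) (by linarith)
  have key : μH[(s : ℝ)] {r : Sgn | ∃ᶠ j : ℕ in atTop, res (d j) r ∈ B j} ≤
      liminf (fun n : ℕ => ∑' i : (Σ j : ℕ, {σ // σ ∈ B (N0 + n + j)}),
        Metric.ediam {r : Sgn | res (d (N0 + n + i.1)) r = i.2.1} ^ (s : ℝ)) atTop := by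
    refine Measure.hausdorffMeasure_le_liminf_tsum (s : ℝ) _
      (fun n : ℕ => ENNReal.ofReal ((1 / 2 : ℝ) ^ n)) ?_
      (fun n (i : Σ j : ℕ, {σ // σ ∈ B (N0 + n + j)}) =>
        {r : Sgn | res (d (N0 + n + i.1)) r = i.2.1}) ?_ ?_
    · have := ENNReal.tendsto_ofReal
        (tendsto_pow_atTop_nhds_zero_of_lt_one (r := (1 / 2 : ℝ)) (by norm_num) (by norm_num))
      simpa using this
    · refine Eventually.of_forall fun n i => ?_
      refine (ediam_cyl _).trans (ENNReal.ofReal_le_ofReal ?_)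
      refine pow_le_pow_of_le_one (by norm_num) (by norm_num) ?_
      have := (hN0 (N0 + n + i.1) (by omega)).1
      omega
    · refine Eventually.of_forall fun n r hr => ?_
      obtain ⟨j, hj, hj'⟩ := (frequently_atTop.mp hr) (N0 + n)
      obtain ⟨k, rfl⟩ := Nat.exists_eq_add_of_le hj
      rw [Set.mem_iUnion]
      exact ⟨⟨k, ⟨res (d (N0 + n + k)) r, hj'⟩⟩, rfl⟩
  have hbd : ∀ n : ℕ, ∑' i : (Σ j : ℕ, {σ // σ ∈ B (N0 + n + j)}),
      Metric.ediam {r : Sgn | res (d (N0 + n + i.1)) r = i.2.1} ^ (s : ℝ) ≤ (1 - a)⁻¹ := by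
    intro n
    rw [ENNReal.tsum_sigma', ← ENNReal.tsum_geometric]
    refine ENNReal.tsum_le_tsum fun j => ?_
    have hj := hN0 (N0 + n + j) (by omega)
    set D := d (N0 + n + j) with hD
    calc ∑' σ : {σ // σ ∈ B (N0 + n + j)},
          Metric.ediam {r : Sgn | res D r = σ.1} ^ (s : ℝ)
        ≤ ∑' _ : {σ // σ ∈ B (N0 + n + j)}, ENNReal.ofReal ((2 : ℝ) ^ (-((s : ℝ) * D))) :=
          ENNReal.tsum_le_tsum fun σ => ediam_cyl_rpow σ.1 s.2
      _ = ENNReal.ofReal (((B (N0 + n + j)).card : ℝ) * (2 : ℝ) ^ (-((s : ℝ) * D))) := by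
          rw [tsum_fintype, Finset.sum_const, Finset.card_univ, Fintype.card_coe, nsmul_eq_mul,
            ENNReal.ofReal_mul (by positivity), ENNReal.ofReal_natCast]
      _ ≤ ENNReal.ofReal (((2 : ℝ) ^ (-δ)) ^ j) := by
          refine ENNReal.ofReal_le_ofReal ?_
          calc ((B (N0 + n + j)).card : ℝ) * (2 : ℝ) ^ (-((s : ℝ) * D))
              ≤ (2 : ℝ) ^ ((1 - γ) * (D : ℝ)) * (2 : ℝ) ^ (-((s : ℝ) * D)) :=
                mul_le_mul_of_nonneg_right hj.2 (by positivity)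
            _ = (2 : ℝ) ^ (-δ * D) := by
                rw [← Real.rpow_add (by norm_num)]
                congr 1
                rw [hδ]; ring
            _ ≤ (2 : ℝ) ^ (-δ * j) := by
                refine Real.rpow_le_rpow_of_exponent_le (by norm_num) ?_
                have h3 : (j : ℝ) ≤ D := by
                  have := hj.1
                  exact_mod_cast (by omega : j ≤ D)
                nlinarith
            _ = ((2 : ℝ) ^ (-δ)) ^ j := by
                rw [← Real.rpow_natCast, ← Real.rpow_mul (by norm_num)]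
      _ = a ^ j := by rw [ha, ENNReal.ofReal_pow (by positivity)]
  have hfin : μH[(s : ℝ)] {r : Sgn | ∃ᶠ j : ℕ in atTop, res (d j) r ∈ B j} ≤ (1 - a)⁻¹ := by
    refine key.trans ?_
    refine (liminf_le_liminf (Eventually.of_forall hbd)).trans ?_
    rw [liminf_const]
  rw [hs, top_le_iff, ENNReal.inv_eq_top, tsub_eq_zero_iff_le] at hfin
  exact absurd hfin (not_le.mpr ha1)

end Pool.Agent.EXD
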