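import Pool.Agent.EXD.Defs

/-!
# EXD-HausU: the space of sign sequences has dimension 1 (Defs only)

Upper bound: the `2^D` cylinders of depth `D` cover the space and have diameter at most `2^{-D}`.
Lower bound: the fair coin measure gives every set a mass at most its diameter (mass distribution
principle).
-/

open Filter Topology MeasureTheory

namespace Pool.Agent.EXD

open Pool.Agent.Helper50.FS

private theorem units_meas (s : Set ℤˣ) : MeasurableSet s := by
  have h : s = (Units.val : ℤˣ → ℤ) ⁻¹' (Units.val '' s) :=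
    (Set.preimage_image_eq s Units.val_injective).symm
  rw [h]
  exact ⟨Units.val '' s, trivial, rfl⟩

private theorem units_borel : BorelSpace ℤˣ := by
  constructor
  refine le_antisymm (fun s _ => ?_) (fun s _ => units_meas s)
  exact MeasurableSpace.measurableSet_generateFrom (isOpen_discrete s)

private theorem pi_borel : BorelSpace (ℕ → ℤˣ) := by
  have := units_borel
  infer_instance

private theorem half_singleton (e : ℤˣ) : half {e} = 2⁻¹ := by
  have h : half {e} = (2⁻¹ : ENNReal) * (Measure.dirac (1 : ℤˣ) {e} + Measure.dirac (-1 : ℤˣ) {e}) := rfl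
  rw [h, Measure.dirac_apply' _ (units_meas _), Measure.dirac_apply' _ (units_meas _)]
  rcases Int.units_eq_one_or e with rfl | rfl
  · simp [Set.indicator]
  · simp [Set.indicator]

private theorem signs_cyl (x : ℕ → ℤˣ) (D : ℕ) :
    signs {r | ∀ i < D, r i = x i} = (2⁻¹ : ENNReal) ^ D := by
  have h : {r : ℕ → ℤˣ | ∀ i < D, r i = x i} =
      Set.pi (Finset.range D) (fun i => ({x i} : Set ℤˣ)) := by
    ext r
    simp [Set.mem_pi]
  rw [h, signs, Measure.infinitePi_pi _ (fun i _ => units_meas _)]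
  simp only [half_singleton]
  simp

private theorem sgn_edist {x y : Sgn} (h : x ≠ y) :
    edist x y = (2⁻¹ : ENNReal) ^ (PiNat.firstDiff (E := fun _ : ℕ => ℤˣ) x y) := by
  have h1 : dist x y = (1 / 2 : ℝ) ^ PiNat.firstDiff (E := fun _ : ℕ => ℤˣ) x y :=
    PiNat.dist_eq_of_ne (E := fun _ : ℕ => ℤˣ) h
  rw [edist_dist, h1, ENNReal.ofReal_pow (by norm_num)]
  congr 1
  rw [one_div, ENNReal.ofReal_inv_of_pos (by norm_num)]
  norm_num

/-- Two sequences which agree up to `D` have distance at most `2^{-D}`. -/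
private theorem sgn_edist_le {x y : Sgn} {D : ℕ} (h : ∀ i < D, x i = y i) :
    edist x y ≤ (2⁻¹ : ENNReal) ^ D := by
  by_cases hxy : x = y
  · rw [hxy, edist_self]
    exact zero_le
  · rw [sgn_edist hxy]
    have h1 : D ≤ PiNat.firstDiff (E := fun _ : ℕ => ℤˣ) x y := by
      by_contra hlt
      push Not at hlt
      exact PiNat.apply_firstDiff_ne (E := fun _ : ℕ => ℤˣ) hxy (h _ hlt)
    exact pow_le_pow_right_of_le_one' (ENNReal.inv_le_one.mpr (by norm_num)) h1

private theorem upper [MeasurableSpace Sgn] [BorelSpace Sgn] :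
    Measure.hausdorffMeasure 1 (Set.univ : Set Sgn) ≤ 1 := by
  have hr : Tendsto (fun D : ℕ => (2⁻¹ : ENNReal) ^ D) atTop (𝓝 0) :=
    ENNReal.tendsto_pow_atTop_nhds_zero_of_lt_one (by
      rw [ENNReal.inv_lt_one]
      norm_num)
  have hd : ∀ (D : ℕ) (σ : Fin D → ℤˣ),
      Metric.ediam ({r : Sgn | res D r = σ} : Set Sgn) ≤ (2⁻¹ : ENNReal) ^ D := by
    intro D σ
    refine Metric.ediam_le fun x hx y hy => sgn_edist_le fun i hi => ?_
    have h1 : res D x = res D y := by
      rw [show res D x = σ from hx, show res D y = σ from hy]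
    exact congrFun h1 ⟨i, hi⟩
  have h := Measure.hausdorffMeasure_le_liminf_sum (X := Sgn) (ι := fun D : ℕ => Fin D → ℤˣ) 1
    Set.univ (l := atTop) (fun D : ℕ => (2⁻¹ : ENNReal) ^ D) hr
    (fun D σ => {r : Sgn | res D r = σ})
    (Eventually.of_forall fun D σ => hd D σ)
    (Eventually.of_forall fun D => fun x _ => Set.mem_iUnion.mpr ⟨res D x, rfl⟩)
  refine h.trans ?_
  have h2 : ∀ D : ℕ, ∑ σ : Fin D → ℤˣ,
      Metric.ediam ({r : Sgn | res D r = σ} : Set Sgn) ^ (1 : ℝ) ≤ 1 := by
    intro D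
    calc ∑ σ : Fin D → ℤˣ, Metric.ediam ({r : Sgn | res D r = σ} : Set Sgn) ^ (1 : ℝ)
        ≤ ∑ _σ : Fin D → ℤˣ, (2⁻¹ : ENNReal) ^ D := by
          refine Finset.sum_le_sum fun σ _ => ?_
          rw [ENNReal.rpow_one]
          exact hd D σ
      _ = (2 : ENNReal) ^ D * (2⁻¹ : ENNReal) ^ D := by
          rw [Finset.sum_const, Finset.card_univ, nsmul_eq_mul]
          congr 1
          simp
      _ = 1 := by
          rw [← mul_pow, ENNReal.mul_inv_cancel (by norm_num) (by norm_num), one_pow]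
  calc liminf (fun D : ℕ => ∑ σ : Fin D → ℤˣ,
        Metric.ediam ({r : Sgn | res D r = σ} : Set Sgn) ^ (1 : ℝ)) atTop
      ≤ liminf (fun _ : ℕ => (1 : ENNReal)) atTop :=
        liminf_le_liminf (Eventually.of_forall h2)
    _ = 1 := liminf_const 1

/-- The mass of a set of sign sequences is at most its diameter. -/
private theorem mass_le (s : Set Sgn) :
    signs (show Set (ℕ → ℤˣ) from s) ≤ Metric.ediam s := by
  classical
  rcases s.eq_empty_or_nonempty with rfl | ⟨x, hx⟩
  · have : signs (∅ : Set (ℕ → ℤˣ)) = 0 := measure_empty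
    exact this.le.trans zero_le
  by_cases h : ∃ D : ℕ, ∃ y ∈ s, x ≠ y ∧ PiNat.firstDiff (E := fun _ : ℕ => ℤˣ) x y = D
  · obtain ⟨y, hy, hxy, hD⟩ := Nat.find_spec h
    have hsub : s ⊆ {r : ℕ → ℤˣ | ∀ i < Nat.find h, r i = x i} := by
      intro z hz i hi
      by_cases hxz : x = z
      · rw [← hxz]
      · have h1 : ¬ PiNat.firstDiff (E := fun _ : ℕ => ℤˣ) x z < Nat.find h := by
          intro hlt
          exact Nat.find_min h hlt ⟨z, hz, hxz, rfl⟩
        push Not at h1
        exact (PiNat.apply_eq_of_lt_firstDiff (E := fun _ : ℕ => ℤˣ) (hi.trans_le h1)).symm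
    calc signs (show Set (ℕ → ℤˣ) from s)
        ≤ signs {r : ℕ → ℤˣ | ∀ i < Nat.find h, r i = x i} := measure_mono hsub
      _ = (2⁻¹ : ENNReal) ^ Nat.find h := signs_cyl x _
      _ = edist x y := by rw [sgn_edist hxy, hD]
      _ ≤ Metric.ediam s := Metric.edist_le_ediam_of_mem hx hy
  · push Not at h
    have hs : ∀ D : ℕ, s ⊆ {r : ℕ → ℤˣ | ∀ i < D, r i = x i} := by
      intro D z hz i _
      by_cases hxz : x = z
      · rw [← hxz]
      · exact absurd rfl (h _ z hz hxz)
    have h0 : signs (show Set (ℕ → ℤˣ) from s) ≤ 0 := by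
      refine ge_of_tendsto (ENNReal.tendsto_pow_atTop_nhds_zero_of_lt_one
        (r := (2⁻¹ : ENNReal)) (by
          rw [ENNReal.inv_lt_one]
          norm_num)) (Eventually.of_forall fun D => ?_)
      rw [← signs_cyl x D]
      exact measure_mono (hs D)
    exact h0.trans zero_le

theorem dimH_Sgn : dimH (Set.univ : Set Sgn) = 1 := by
  let _ : MeasurableSpace Sgn := (inferInstance : MeasurableSpace (ℕ → ℤˣ))
  have _ : BorelSpace Sgn := pi_borel
  obtain ⟨ν, hν⟩ : ∃ ν : Measure Sgn, ∀ s : Set Sgn,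
      ν s = signs (show Set (ℕ → ℤˣ) from s) :=
    ⟨(signs : Measure (ℕ → ℤˣ)), fun _ => rfl⟩
  have h1 : Measure.hausdorffMeasure ((1 : NNReal) : ℝ) (Set.univ : Set Sgn) ≤ 1 := upper
  have h2 : ν ≤ Measure.hausdorffMeasure ((1 : NNReal) : ℝ) := by
    refine Measure.le_hausdorffMeasure _ _ 1 one_pos fun s _ => ?_
    rw [NNReal.coe_one, ENNReal.rpow_one, hν]
    exact mass_le s
  have h3 : Measure.hausdorffMeasure ((1 : NNReal) : ℝ) (Set.univ : Set Sgn) ≠ 0 := by
    intro h0
    have h4 : ν Set.univ ≤ 0 := by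
      rw [← h0]
      exact h2 _
    rw [hν] at h4
    have h5 : signs (Set.univ : Set (ℕ → ℤˣ)) = 1 := by
      unfold signs
      exact measure_univ
    have h6 : signs (Set.univ : Set (ℕ → ℤˣ)) ≤ 0 := h4
    rw [h5] at h6
    exact absurd h6 (by norm_num)
  have h := dimH_of_hausdorffMeasure_ne_zero_ne_top h3 (ne_top_of_le_ne_top ENNReal.one_ne_top h1)
  simpa using h

end Pool.Agent.EXD
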