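import Pool.Agent.EXD.Mul
import Pool.Agent.Helper50.FS.Defs

/-!
# EXD-LogC: from Cesaro averages to logarithmic averages

Abel summation, and the bound for the logarithmic correlations `ncorr` of `tw P u r`.
-/

open Filter Topology

namespace Pool.Agent.EXD

open Pool.Agent.Helper50.FS

private theorem abel (x : ℕ → ℝ) (N : ℕ) (hN : 1 ≤ N) :
    ∑ n ∈ Finset.Icc 1 N, x n / n =
      (∑ n ∈ Finset.Icc 1 N, x n) / N +
        ∑ m ∈ Finset.Ico 1 N, (∑ n ∈ Finset.Icc 1 m, x n) / ((m : ℝ) * (m + 1)) := by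
  induction N, hN using Nat.le_induction with
  | base => simp
  | succ N hN ih =>
    have hN0 : (0 : ℝ) < N := by exact_mod_cast hN
    rw [Finset.sum_Icc_succ_top (by omega), Finset.sum_Icc_succ_top (by omega), ih,
      Finset.sum_Ico_succ_top hN]
    push_cast
    field_simp
    ring

private theorem harm (N : ℕ) (hN : 1 ≤ N) :
    ∑ m ∈ Finset.Ico 1 N, (1 : ℝ) / (m + 1) ≤ Real.log N := by
  induction N, hN using Nat.le_induction with
  | base => simp
  | succ N hN ih =>
    have hN0 : (0 : ℝ) < N := by exact_mod_cast hN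
    rw [Finset.sum_Ico_succ_top hN]
    have h1 : (1 : ℝ) / (N + 1) ≤ Real.log ((N + 1 : ℕ) : ℝ) - Real.log N := by
      rw [← Real.log_div (by positivity) (by positivity)]
      have h2 := Real.one_sub_inv_le_log_of_pos (x := ((N + 1 : ℕ) : ℝ) / N) (by positivity)
      refine le_trans (le_of_eq ?_) h2
      push_cast
      field_simp
      ring
    linarith

theorem log_of_cesaro (x : ℕ → ℝ) (ε : ℝ) (hε : 0 < ε)
    (h : ∀ᶠ N : ℕ in atTop, |∑ n ∈ Finset.Icc 1 N, x n| ≤ ε * N) :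
    ∀ᶠ N : ℕ in atTop, |(1 / Real.log N) * ∑ n ∈ Finset.Icc 1 N, x n / n| ≤ 2 * ε := by
  obtain ⟨N0, hN0⟩ := eventually_atTop.1 h
  set s : ℕ → ℝ := fun m => ∑ n ∈ Finset.Icc 1 m, x n with hs
  set C : ℝ := ∑ m ∈ Finset.Ico 1 (N0 + 1), |s m| / ((m : ℝ) * (m + 1)) with hC
  have hlog : Tendsto (fun N : ℕ => ε * Real.log (N : ℝ)) atTop atTop :=
    (Real.tendsto_log_atTop.comp tendsto_natCast_atTop_atTop).const_mul_atTop hε
  filter_upwards [eventually_ge_atTop (N0 + 2), hlog.eventually_ge_atTop (ε + C)] with N hN hL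
  have hN1 : 1 ≤ N := by omega
  have hNr : (0 : ℝ) < N := by exact_mod_cast (by omega : 0 < N)
  have hlN : 0 < Real.log N := Real.log_pos (by exact_mod_cast (by omega : 1 < N))
  rw [abel x N hN1]
  have h1 : |s N / N| ≤ ε := by
    rw [abs_div, abs_of_pos hNr, div_le_iff₀ hNr]
    exact hN0 N (by omega)
  have h2 : |∑ m ∈ Finset.Ico 1 N, s m / ((m : ℝ) * (m + 1))| ≤ C + ε * Real.log N := by
    refine (Finset.abs_sum_le_sum_abs _ _).trans ?_
    have h3 : ∀ m ∈ Finset.Ico 1 N, |s m / ((m : ℝ) * (m + 1))| ≤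
        (if m < N0 + 1 then |s m| / ((m : ℝ) * (m + 1)) else 0) + ε * (1 / ((m : ℝ) + 1)) := by
      intro m hm
      rw [Finset.mem_Ico] at hm
      have hm0 : (0 : ℝ) < m := by exact_mod_cast (by omega : 0 < m)
      rw [abs_div, abs_of_pos (by positivity : (0 : ℝ) < (m : ℝ) * (m + 1))]
      split_ifs with hlt
      · have : 0 ≤ ε * (1 / ((m : ℝ) + 1)) := by positivity
        linarith
      · rw [zero_add, div_le_iff₀ (by positivity)]
        have h4 := hN0 m (by omega)
        have h5 : ε * (1 / ((m : ℝ) + 1)) * ((m : ℝ) * (m + 1)) = ε * m := by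
          field_simp
        rw [h5]
        exact h4
    refine (Finset.sum_le_sum h3).trans ?_
    rw [Finset.sum_add_distrib, ← Finset.mul_sum]
    refine add_le_add ?_ ?_
    · rw [← Finset.sum_filter, hC]
      refine Finset.sum_le_sum_of_subset_of_nonneg ?_ ?_
      · intro m hm
        rw [Finset.mem_filter, Finset.mem_Ico] at hm
        rw [Finset.mem_Ico]
        omega
      · intro m _ _
        positivity
    · exact mul_le_mul_of_nonneg_left (harm N hN1) hε.le
  have h3 : |s N / N + ∑ m ∈ Finset.Ico 1 N, s m / ((m : ℝ) * (m + 1))| ≤ 2 * ε * Real.log N := by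
    refine (abs_add_le _ _).trans ?_
    linarith
  rw [abs_mul, abs_of_pos (by positivity : (0 : ℝ) < 1 / Real.log N), one_div, inv_mul_le_iff₀ hlN]
  calc _ ≤ 2 * ε * Real.log N := h3
    _ = _ := by ring

/-- the weight that turns `cm` into `tw` -/
noncomputable def wt (u : ℕ → ℤˣ) (A : Finset ℕ) (n : ℕ) : ℝ := ∏ a ∈ A, sg (u (n + a))

private theorem abs_sg' (x : ℤˣ) : |sg x| = 1 := by
  rcases Int.units_eq_one_or x with h | h <;> simp [sg, h]

theorem abs_wt (u : ℕ → ℤˣ) (A : Finset ℕ) (n : ℕ) : |wt u A n| ≤ 1 := by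
  unfold wt
  rw [Finset.abs_prod]
  refine le_of_eq (Finset.prod_eq_one fun a _ => abs_sg' _)

theorem ncorr_le (P : Set ℕ) (u : ℕ → ℤˣ) (A : Finset ℕ) (r : ℕ → ℤˣ) (ε : ℝ) (hε : 0 < ε)
    (h : ∀ᶠ N : ℕ in atTop, |S P A (wt u A) N r| ≤ ε * N) :
    ∀ᶠ N : ℕ in atTop, |ncorr (tw P u r) A N| ≤ 2 * ε := by
  have h1 := log_of_cesaro (fun n => wt u A n * ∏ a ∈ A, sg (cm P r (n + a))) ε hε h
  filter_upwards [h1] with N hN
  unfold ncorr
  refine le_trans (le_of_eq ?_) hN
  congr 2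
  refine Finset.sum_congr rfl fun n _ => ?_
  congr 1
  unfold wt
  rw [← Finset.prod_mul_distrib]
  refine Finset.prod_congr rfl fun a _ => ?_
  rw [tw_eq]
  unfold sg
  push_cast
  ring

end Pool.Agent.EXD
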