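import Pool.Agent.EXD.Defs

/-!
# EXD-Meas: Borel-Cantelli for measures of full entropy (Defs only)

`μ {r | res (d j) r ∈ B j} ≤ ∑_{σ ∈ B j} μ {r | res (d j) r = σ}
≤ |B j| 2^(-(1-κ) d_j) ≤ 2^((1-γ) d_j - (1-κ(d_j)) d_j) = 2^((κ(d_j) - γ) d_j) ≤ 2^(-(γ/2) d_j)
≤ 2^(-(γ/2) j)` for large `j` (`d_j ≥ j → ∞`, so `κ(d_j) ≤ γ/2`): summable.
`MeasureTheory.measure_setOf_frequently_eq_zero` / `measure_limsup_atTop_eq_zero` (no measurability
needed), after changing finitely many terms (a probability measure is finite).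
-/

open Filter Topology MeasureTheory

namespace Pool.Agent.EXD

open Pool.Agent.Helper50.FS

theorem ae_avoid (μ : Measure (ℕ → ℤˣ)) [IsProbabilityMeasure μ] (hμ : HighEnt μ) (d : ℕ → ℕ)
    (hd : ∀ᶠ j : ℕ in atTop, j ≤ d j)
    (B : ∀ j, Finset (Fin (d j) → ℤˣ)) (γ : ℝ) (h0 : 0 < γ) (h1 : γ < 1)
    (hB : ∀ᶠ j : ℕ in atTop, ((B j).card : ℝ) ≤ (2 : ℝ) ^ ((1 - γ) * (d j : ℝ))) :
    ∀ᵐ r ∂μ, ∀ᶠ j : ℕ in atTop, res (d j) r ∉ B j := by
  obtain ⟨κ, hκ, hcyl⟩ := hμ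
  have hdt : Tendsto d atTop atTop := tendsto_atTop_mono' atTop hd tendsto_id
  have hκd : ∀ᶠ j : ℕ in atTop, κ (d j) < γ / 2 :=
    (tendsto_order.1 (hκ.comp hdt)).2 _ (by linarith)
  obtain ⟨J, hJ⟩ := eventually_atTop.1 (hd.and (hκd.and hB))
  have hbound : ∀ j, J ≤ j → μ {r | res (d j) r ∈ B j} ≤
      ENNReal.ofReal (((2 : ℝ) ^ (-(γ / 2))) ^ j) := by
    intro j hj
    obtain ⟨h2, h3, h4⟩ := hJ j hj
    have h5 : {r : ℕ → ℤˣ | res (d j) r ∈ B j} ⊆ ⋃ σ ∈ B j, {r | res (d j) r = σ} := by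
      intro r hr
      simp only [Set.mem_iUnion, Set.mem_ofPred_eq, exists_prop]
      exact ⟨_, hr, rfl⟩
    have hd0 : (0 : ℝ) ≤ d j := Nat.cast_nonneg _
    have hjd : (j : ℝ) ≤ d j := by exact_mod_cast h2
    calc μ {r | res (d j) r ∈ B j} ≤ μ (⋃ σ ∈ B j, {r | res (d j) r = σ}) := measure_mono h5
      _ ≤ ∑ σ ∈ B j, μ {r | res (d j) r = σ} := measure_biUnion_finset_le _ _
      _ ≤ ∑ σ ∈ B j, ENNReal.ofReal ((2 : ℝ) ^ (-(1 - κ (d j)) * (d j : ℝ))) :=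
          Finset.sum_le_sum fun σ _ => hcyl (d j) σ
      _ = ENNReal.ofReal (((B j).card : ℝ) * (2 : ℝ) ^ (-(1 - κ (d j)) * (d j : ℝ))) := by
          rw [Finset.sum_const, nsmul_eq_mul, ENNReal.ofReal_mul (Nat.cast_nonneg _),
            ENNReal.ofReal_natCast]
      _ ≤ ENNReal.ofReal (((2 : ℝ) ^ (-(γ / 2))) ^ j) := by
          refine ENNReal.ofReal_le_ofReal ?_
          calc ((B j).card : ℝ) * (2 : ℝ) ^ (-(1 - κ (d j)) * (d j : ℝ))
              ≤ (2 : ℝ) ^ ((1 - γ) * (d j : ℝ)) * (2 : ℝ) ^ (-(1 - κ (d j)) * (d j : ℝ)) :=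
                mul_le_mul_of_nonneg_right h4 (by positivity)
            _ = (2 : ℝ) ^ ((κ (d j) - γ) * (d j : ℝ)) := by
                rw [← Real.rpow_add two_pos]
                congr 1
                ring
            _ ≤ (2 : ℝ) ^ (-(γ / 2) * (j : ℝ)) := by
                refine Real.rpow_le_rpow_of_exponent_le one_le_two ?_
                nlinarith
            _ = ((2 : ℝ) ^ (-(γ / 2))) ^ j := by
                rw [Real.rpow_mul two_pos.le, Real.rpow_natCast]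
  have hlt : (2 : ℝ) ^ (-(γ / 2)) < 1 := Real.rpow_lt_one_of_one_lt_of_neg one_lt_two (by linarith)
  have hsum : Summable fun j : ℕ => ((2 : ℝ) ^ (-(γ / 2))) ^ j :=
    summable_geometric_of_lt_one (by positivity) hlt
  have hne : ∑' j, μ {r : ℕ → ℤˣ | J ≤ j ∧ res (d j) r ∈ B j} ≠ ⊤ := by
    refine ne_top_of_le_ne_top hsum.tsum_ofReal_ne_top (ENNReal.tsum_le_tsum fun j => ?_)
    by_cases hj : J ≤ j
    · refine (measure_mono ?_).trans (hbound j hj)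
      exact fun r hr => hr.2
    · have h6 : {r : ℕ → ℤˣ | J ≤ j ∧ res (d j) r ∈ B j} = ∅ := by
        ext r
        simp [hj]
      rw [h6, measure_empty]
      exact zero_le
  have h7 := measure_setOfPred_frequently_eq_zero hne
  rw [ae_iff]
  refine measure_mono_null ?_ h7
  intro r hr
  rw [Set.mem_ofPred_eq] at hr ⊢
  rw [not_eventually] at hr
  refine (hr.and_eventually (eventually_ge_atTop J)).mono fun j hj => ⟨hj.2, ?_⟩
  exact not_not.1 hj.1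

end Pool.Agent.EXD
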