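import Pool.Agent.EXD.Core
import Pool.Agent.EXD.Haus
import Pool.Agent.EXD.HausU
import Pool.Agent.EXD.Meas
import Pool.Agent.EXD.LogC
import Pool.Agent.EXD.BernF

/-!
# EXD-Main: assembly

The three main statements: dimension of the exceptional sets for weighted Cesaro correlations and
for continuous test functions, and the almost sure statement for measures of full entropy.
-/

open Filter Topology MeasureTheory

namespace Pool.Agent.EXD

open Pool.Agent.Helper50.FS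

private theorem ofReal_lt_one {γ : ℝ} (h0 : 0 < γ) : ENNReal.ofReal (1 - γ) < 1 := by
  rw [← ENNReal.ofReal_one]
  exact (ENNReal.ofReal_lt_ofReal_iff (by norm_num)).2 (by linarith)

private theorem S_lt_of_le {ε : ℝ} {P : Set ℕ} {A : Finset ℕ} {w : ℕ → ℝ} {r : ℕ → ℤˣ}
    (hε : 0 < ε) (h : ∀ᶠ N : ℕ in atTop, |S P A w N r| ≤ ε / 2 * N) :
    ∀ᶠ N : ℕ in atTop, |S P A w N r| < ε * N := by
  filter_upwards [h, eventually_gt_atTop 0] with N hN hN0
  have : (0 : ℝ) < N := by exact_mod_cast hN0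
  nlinarith

theorem main_dim (P : Set ℕ) (hP : RelDense P) (k : ℕ) (ε : ℝ) (hk : 0 < k) (hε : 0 < ε) :
    ∃ s : ENNReal, s < 1 ∧ ∀ (A : Finset ℕ) (w : ℕ → ℝ), A.card = k → (∀ n, |w n| ≤ 1) →
      dimH {r : Sgn | ∃ᶠ N : ℕ in atTop,
        ε * N ≤ |∑ n ∈ Finset.Icc 1 N, w n * ∏ a ∈ A, sg (cm P r (n + a))|} ≤ s := by
  obtain ⟨γ, d, h0, h1, hd, hcore⟩ := core P hP k hk (ε / 2) (by positivity)
  refine ⟨ENNReal.ofReal (1 - γ), ofReal_lt_one h0, fun A w hA hw => ?_⟩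
  obtain ⟨B, hB, hav⟩ := hcore A w hA hw
  refine le_trans (dimH_mono ?_) (dimH_limsup d hd B γ h0 h1 hB)
  intro r hr
  rw [Set.mem_ofPred_eq] at hr ⊢
  by_contra hcon
  rw [not_frequently] at hcon
  have h2 := S_lt_of_le hε (hav r hcon)
  refine hr ?_
  filter_upwards [h2] with N hN
  rw [not_le]
  exact hN

/-- the exceptional set of one correlation of `tw P u r` -/
theorem corr_dim (P : Set ℕ) (hP : RelDense P) (k : ℕ) (ε : ℝ) (hk : 0 < k) (hε : 0 < ε) :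
    ∃ s : ENNReal, s < 1 ∧ ∀ (A : Finset ℕ) (u : ℕ → ℤˣ), A.card = k →
      dimH {r : Sgn | ¬ ∀ᶠ N : ℕ in atTop, |ncorr (tw P u r) A N| ≤ ε} ≤ s := by
  obtain ⟨γ, d, h0, h1, hd, hcore⟩ := core P hP k hk (ε / 2) (by positivity)
  refine ⟨ENNReal.ofReal (1 - γ), ofReal_lt_one h0, fun A u hA => ?_⟩
  obtain ⟨B, hB, hav⟩ := hcore A (wt u A) hA (abs_wt u A)
  refine le_trans (dimH_mono ?_) (dimH_limsup d hd B γ h0 h1 hB)
  intro r hr
  rw [Set.mem_ofPred_eq] at hr ⊢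
  by_contra hcon
  rw [not_frequently] at hcon
  have h2 := ncorr_le P u A r (ε / 2) (by positivity) (hav r hcon)
  rw [mul_div_cancel₀ ε (by norm_num : (2 : ℝ) ≠ 0)] at h2
  exact hr h2

theorem main_fun (P : Set ℕ) (hP : RelDense P) (f : C(X, ℝ)) (ε : ℝ) (hε : 0 < ε) :
    ∃ s : ENNReal, s < 1 ∧ ∀ u : ℕ → ℤˣ,
      dimH {r : Sgn | ∃ᶠ N : ℕ in atTop, ε ≤ |logAvg (tw P u r) f N - ∫ x, f x ∂bern|} ≤ s := by
  obtain ⟨F, δ, hδ, hF, htest⟩ := test_fun f ε hε
  have hex : ∀ A : Finset ℕ, ∃ s : ENNReal, s < 1 ∧ (A ∈ F → ∀ u : ℕ → ℤˣ,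
      dimH {r : Sgn | ¬ ∀ᶠ N : ℕ in atTop, |ncorr (tw P u r) A N| ≤ δ} ≤ s) := by
    intro A
    by_cases hA : A ∈ F
    · obtain ⟨s, hs, h⟩ := corr_dim P hP A.card δ (Finset.card_pos.2 (hF A hA)) hδ
      exact ⟨s, hs, fun _ u => h A u rfl⟩
    · exact ⟨0, zero_lt_one, fun h => absurd h hA⟩
  choose s hs1 hs using hex
  refine ⟨F.sup s, ?_, fun u => ?_⟩
  · rw [Finset.sup_lt_iff (by simp)]
    exact fun A _ => hs1 A
  · have hsub : {r : Sgn | ∃ᶠ N : ℕ in atTop, ε ≤ |logAvg (tw P u r) f N - ∫ x, f x ∂bern|} ⊆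
        ⋃ A ∈ (F : Set (Finset ℕ)), {r : Sgn | ¬ ∀ᶠ N : ℕ in atTop, |ncorr (tw P u r) A N| ≤ δ} := by
      intro r hr
      rw [Set.mem_ofPred_eq] at hr
      by_contra hcon
      simp only [Set.mem_iUnion, Set.mem_ofPred_eq, not_exists, not_not] at hcon
      refine hr ?_
      filter_upwards [htest (tw P u r) (fun A hA => hcon A hA)] with N hN
      rw [not_le]
      exact hN
    refine (dimH_mono hsub).trans ?_
    rw [dimH_bUnion F.countable_toSet]
    refine iSup₂_le fun A hA => ?_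
    exact (hs A hA u).trans (Finset.le_sup (f := s) hA)

/-- the exceptional set is a countable union of sets of dimension less than one -/
theorem main_union (P : Set ℕ) (hP : RelDense P) (u : ℕ → ℤˣ) :
    ∃ E : ℕ → Set Sgn, (∀ i, dimH (E i) < 1) ∧ {r : Sgn | ¬ IsBern (tw P u r)} ⊆ ⋃ i, E i := by
  classical
  let E' : Finset ℕ × ℕ → Set Sgn := fun x =>
    {r : Sgn | x.1.Nonempty ∧ ¬ ∀ᶠ N : ℕ in atTop, |ncorr (tw P u r) x.1 N| ≤ 1 / ((x.2 : ℝ) + 1)}
  refine ⟨fun i => E' ((Encodable.decode (α := Finset ℕ × ℕ) i).getD (∅, 0)), fun i => ?_, ?_⟩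
  · show dimH (E' ((Encodable.decode (α := Finset ℕ × ℕ) i).getD (∅, 0))) < 1
    generalize (Encodable.decode (α := Finset ℕ × ℕ) i).getD (∅, 0) = x
    by_cases hx : x.1.Nonempty
    · obtain ⟨s, hs, h⟩ := corr_dim P hP x.1.card (1 / ((x.2 : ℝ) + 1)) (Finset.card_pos.2 hx)
        (by positivity)
      refine lt_of_le_of_lt (le_trans (dimH_mono ?_) (h x.1 u rfl)) hs
      intro r hr
      exact hr.2
    · have : E' x = ∅ := by
        ext r
        simp only [E', Set.mem_ofPred_eq, Set.mem_empty_iff_false, iff_false]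
        exact fun h => hx h.1
      rw [this, dimH_empty]
      exact zero_lt_one
  · intro r hr
    rw [Set.mem_ofPred_eq] at hr
    unfold IsBern at hr
    rw [bernAlong_iff _ _ le_rfl] at hr
    push Not at hr
    obtain ⟨A, hA, hnt⟩ := hr
    have : ∃ m : ℕ, ¬ ∀ᶠ N : ℕ in atTop, |ncorr (tw P u r) A N| ≤ 1 / ((m : ℝ) + 1) := by
      by_contra hcon
      push Not at hcon
      refine hnt ?_
      rw [Metric.tendsto_nhds]
      intro ε hε
      obtain ⟨m, hm⟩ := exists_nat_one_div_lt hε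
      filter_upwards [hcon m] with N hN
      rw [Real.dist_eq, sub_zero]
      exact hN.trans_lt hm
    obtain ⟨m, hm⟩ := this
    rw [Set.mem_iUnion]
    refine ⟨Encodable.encode (A, m), ?_⟩
    simp only [Encodable.encodek, Option.getD_some]
    exact ⟨hA, hm⟩

theorem main_meas (P : Set ℕ) (hP : RelDense P) (μ : Measure (ℕ → ℤˣ)) [IsProbabilityMeasure μ]
    (hμ : HighEnt μ) (u : ℕ → ℤˣ) : ∀ᵐ r ∂μ, IsBern (tw P u r) := by
  have key : ∀ (A : Finset ℕ) (m : ℕ), A.Nonempty →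
      ∀ᵐ r ∂μ, ∀ᶠ N : ℕ in atTop, |ncorr (tw P u r) A N| ≤ 1 / ((m : ℝ) + 1) := by
    intro A m hA
    obtain ⟨γ, d, h0, h1, hd, hcore⟩ := core P hP A.card (Finset.card_pos.2 hA)
      (1 / ((m : ℝ) + 1) / 2) (by positivity)
    obtain ⟨B, hB, hav⟩ := hcore A (wt u A) rfl (abs_wt u A)
    filter_upwards [ae_avoid μ hμ d hd B γ h0 h1 hB] with r hr
    have h2 := ncorr_le P u A r _ (by positivity) (hav r hr)
    rwa [mul_div_cancel₀ _ (by norm_num : (2 : ℝ) ≠ 0)] at h2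
  have key2 : ∀ᵐ r ∂μ, ∀ (A : Finset ℕ) (m : ℕ), A.Nonempty →
      ∀ᶠ N : ℕ in atTop, |ncorr (tw P u r) A N| ≤ 1 / ((m : ℝ) + 1) := by
    rw [ae_all_iff]
    intro A
    rw [ae_all_iff]
    intro m
    by_cases hA : A.Nonempty
    · filter_upwards [key A m hA] with r hr _
      exact hr
    · exact Eventually.of_forall fun r h => absurd h hA
  filter_upwards [key2] with r hr
  unfold IsBern
  rw [bernAlong_iff _ _ le_rfl]
  intro A hA
  rw [Metric.tendsto_nhds]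
  intro ε hε
  obtain ⟨m, hm⟩ := exists_nat_one_div_lt hε
  filter_upwards [hr A m hA] with N hN
  rw [Real.dist_eq, sub_zero]
  exact hN.trans_lt hm

end Pool.Agent.EXD
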