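import Pool.Agent.EXD.Defs

/-!
# EXD-Mul: multiplicativity of the twisted functions

Complete multiplicativity of `cm P r`, locality in the signs, splitting off the largest prime.
-/

namespace Pool.Agent.EXD

open Pool.Agent.Helper50.FS

theorem idx_lt (P : Set ℕ) {q p : ℕ} (hq : q ∈ P) (h : q < p) : idx P q < idx P p := by
  classical
  unfold idx
  refine Finset.card_lt_card ?_
  refine ⟨?_, ?_⟩
  · intro x hx
    rw [Finset.mem_filter, Finset.mem_range] at hx ⊢
    exact ⟨hx.1.trans h, hx.2⟩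
  · intro hsub
    have h1 : q ∈ (Finset.range p).filter (fun q => q ∈ P) :=
      Finset.mem_filter.2 ⟨Finset.mem_range.2 h, hq⟩
    have h2 := hsub h1
    rw [Finset.mem_filter, Finset.mem_range] at h2
    exact lt_irrefl _ h2.1

theorem tw_eq (P : Set ℕ) (u : ℕ → ℤˣ) (r : ℕ → ℤˣ) (n : ℕ) : tw P u r n = u n * cm P r n := by
  unfold cm tw twist
  rw [one_mul]

open Classical in
private theorem cm_eq (P : Set ℕ) (r : ℕ → ℤˣ) (n : ℕ) :
    cm P r n = ∏ p ∈ n.primeFactors.filter (fun p => p ∈ P), r (idx P p) ^ n.factorization p := by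
  unfold cm tw twist
  rw [one_mul]

open Classical in
private theorem cm_eq_big (P : Set ℕ) (r : ℕ → ℤˣ) (n : ℕ) (F : Finset ℕ) (hF : n.primeFactors ⊆ F) :
    cm P r n = ∏ p ∈ F.filter (fun p => p ∈ P), r (idx P p) ^ n.factorization p := by
  rw [cm_eq]
  refine Finset.prod_subset (Finset.filter_subset_filter _ hF) ?_
  intro p hp hnp
  have h1 : p ∉ n.primeFactors := by
    intro h
    exact hnp (Finset.mem_filter.2 ⟨h, (Finset.mem_filter.1 hp).2⟩)
  have h2 : n.factorization p = 0 := by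
    rw [← Nat.support_factorization] at h1
    exact Finsupp.notMem_support_iff.1 h1
  rw [h2, pow_zero]

theorem cm_mul (P : Set ℕ) (r : ℕ → ℤˣ) (m n : ℕ) (hm : m ≠ 0) (hn : n ≠ 0) :
    cm P r (m * n) = cm P r m * cm P r n := by
  classical
  rw [cm_eq P r (m * n), cm_eq_big P r m (m * n).primeFactors
    (Nat.primeFactors_mono (dvd_mul_right m n) (mul_ne_zero hm hn)),
    cm_eq_big P r n (m * n).primeFactors
    (Nat.primeFactors_mono (dvd_mul_left n m) (mul_ne_zero hm hn)), ← Finset.prod_mul_distrib]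
  refine Finset.prod_congr rfl fun p _ => ?_
  rw [Nat.factorization_mul hm hn, Finsupp.add_apply, pow_add]

private theorem Z_ne (A : Finset ℕ) (n : ℕ) (hn : 1 ≤ n) : Z A n ≠ 0 := by
  unfold Z
  rw [Finset.prod_ne_zero_iff]
  intro a _
  omega

private theorem sg_mul' (a b : ℤˣ) : sg (a * b) = sg a * sg b := by
  unfold sg
  push_cast
  ring

private theorem cm_one (P : Set ℕ) (r : ℕ → ℤˣ) : cm P r 1 = 1 := by
  classical
  rw [cm_eq]
  simp

theorem isMult_tw (P : Set ℕ) (u : ℕ → ℤˣ) (hu : IsMult u) (r : ℕ → ℤˣ) : IsMult (tw P u r) := by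
  refine ⟨?_, fun m n hm hn hmn => ?_⟩
  · rw [tw_eq, hu.1, cm_one, one_mul]
  · rw [tw_eq, tw_eq, tw_eq, hu.2 m n hm hn hmn, cm_mul P r m n hm.ne' hn.ne']
    exact mul_mul_mul_comm _ _ _ _

/-- the product over the shifts -/
theorem cm_Z (P : Set ℕ) (r : ℕ → ℤˣ) (A : Finset ℕ) (n : ℕ) (hn : 1 ≤ n) :
    ∏ a ∈ A, sg (cm P r (n + a)) = sg (cm P r (Z A n)) := by
  classical
  unfold Z
  induction A using Finset.induction_on with
  | empty =>
    rw [Finset.prod_empty, Finset.prod_empty, cm_one]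
    simp [sg]
  | insert a A ha ih =>
    rw [Finset.prod_insert ha, Finset.prod_insert ha, ih, cm_mul, sg_mul']
    · omega
    · exact Z_ne A n hn

/-- the value at `m` depends only on the signs with index below `idx P p` if all elements of `P`
dividing `m` are smaller than `p` -/
theorem cm_local (P : Set ℕ) (r r' : ℕ → ℤˣ) (m p : ℕ)
    (h : ∀ i < idx P p, r i = r' i) (hm : ∀ q ∈ P, q ∣ m → q < p) : cm P r m = cm P r' m := by
  classical
  rw [cm_eq, cm_eq]
  refine Finset.prod_congr rfl fun q hq => ?_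
  rw [Finset.mem_filter] at hq
  rw [h (idx P q) (idx_lt P hq.2 (hm q hq.2 (Nat.dvd_of_mem_primeFactors hq.1)))]

/-- splitting off the largest prime -/
theorem cm_top (P : Set ℕ) (hP : ∀ p ∈ P, p.Prime) (r : ℕ → ℤˣ) (m p : ℕ) (hm : m ≠ 0)
    (h : Top P m p) :
    sg (cm P r m) = sg (r (idx P p)) * sg (cm P r (m / p)) ∧ ∀ q ∈ P, q ∣ m / p → q < p := by
  classical
  obtain ⟨hpP, ⟨k, rfl⟩, hp2, hmax⟩ := h
  have hpr := hP p hpP
  have hk : k ≠ 0 := by
    rintro rfl
    exact hm (mul_zero p)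
  rw [Nat.mul_div_cancel_left k hpr.pos]
  constructor
  · rw [cm_mul P r p k hpr.ne_zero hk, sg_mul']
    congr 2
    rw [cm_eq, hpr.primeFactors, Finset.filter_singleton, if_pos hpP, Finset.prod_singleton,
      Nat.factorization_def p hpr]
    have := Fact.mk hpr
    simp
  · intro q hq hqk
    refine lt_of_le_of_ne (hmax q hq (dvd_mul_of_dvd_right hqk p)) ?_
    rintro rfl
    apply hp2
    rw [pow_two]
    exact mul_dvd_mul_left q hqk

end Pool.Agent.EXD
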