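import Pool.Agent.EXD.Defs

/-!
# EXD-TK: Turan-Kubilius inequality for a finite set of primes
First and second moment of the number of prime divisors in `Q`, Chebyshev's inequality.
-/

namespace Pool.Agent.EXD

open Pool.Agent.Helper50.FS

private theorem cnt_eq (a d : ℕ) (N : ℕ) :
    ((Finset.Icc 1 N).filter (fun n => d ∣ n + a)).card + a / d = (N + a) / d := by
  induction N with
  | zero => simp
  | succ N ih =>
    rw [← Finset.insert_Icc_right_eq_Icc_add_one (by omega), Finset.filter_insert]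
    rw [show N + 1 + a = N + a + 1 by ring, Nat.succ_div]
    by_cases h : d ∣ N + a + 1
    · rw [if_pos h, if_pos h, Finset.card_insert_of_notMem (by simp), ← ih]
      ring
    · rw [if_neg h, if_neg h, ← ih]
      rfl

private theorem cnt_bd (a d N : ℕ) (hd : 0 < d) :
    (N : ℝ) / d - 1 ≤ (((Finset.Icc 1 N).filter (fun n => d ∣ n + a)).card : ℝ) ∧
      (((Finset.Icc 1 N).filter (fun n => d ∣ n + a)).card : ℝ) ≤ (N : ℝ) / d + 1 := by
  have h := cnt_eq a d N
  have h' : (((Finset.Icc 1 N).filter (fun n => d ∣ n + a)).card : ℝ) + ((a / d : ℕ) : ℝ) =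
      (((N + a) / d : ℕ) : ℝ) := by exact_mod_cast h
  have hd' : (0 : ℝ) < d := by exact_mod_cast hd
  have e1 : ((a / d : ℕ) : ℝ) ≤ (a : ℝ) / d := Nat.cast_div_le
  have e2 : (((N + a) / d : ℕ) : ℝ) ≤ ((N + a : ℕ) : ℝ) / d := Nat.cast_div_le
  have e3 : (a : ℝ) / d < ((a / d : ℕ) : ℝ) + 1 := by
    rw [div_lt_iff₀ hd']
    have := Nat.lt_div_mul_add (a := a) hd
    have h2 : a < (a / d + 1) * d := by rw [add_mul, one_mul]; exact this
    exact_mod_cast h2
  have e4 : ((N + a : ℕ) : ℝ) / d < (((N + a) / d : ℕ) : ℝ) + 1 := by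
    rw [div_lt_iff₀ hd']
    have := Nat.lt_div_mul_add (a := N + a) hd
    have h2 : N + a < ((N + a) / d + 1) * d := by rw [add_mul, one_mul]; exact this
    exact_mod_cast h2
  have e5 : ((N + a : ℕ) : ℝ) / d = (N : ℝ) / d + (a : ℝ) / d := by
    push_cast
    rw [add_div]
  constructor <;> linarith

theorem tk (Q : Finset ℕ) (hQ : ∀ p ∈ Q, p.Prime) (a N : ℕ) (hN : Q.card ^ 2 ≤ N)
    (M : ℝ) (hM : M = ∑ p ∈ Q, (1 / (p : ℝ))) (hM1 : 1 ≤ M) :
    (((Finset.Icc 1 N).filter (fun n => ∀ p ∈ Q, ¬ p ∣ n + a)).card : ℝ) ≤ 5 * N / M := by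
  classical
  set I := Finset.Icc 1 N with hI
  let f : ℕ → ℕ → ℝ := fun p n => if p ∣ n + a then 1 else 0
  let om : ℕ → ℝ := fun n => ∑ p ∈ Q, f p n
  have hf : ∀ p, ∑ n ∈ I, f p n = ((I.filter (fun n => p ∣ n + a)).card : ℝ) := by
    intro p
    simp only [f, Finset.sum_boole]
  have hIc : (I.card : ℝ) = N := by simp [hI]
  have hN1 : ((Q.card : ℝ)) ^ 2 ≤ N := by exact_mod_cast hN
  have hQ0 : (0 : ℝ) ≤ Q.card := Nat.cast_nonneg _
  have hQ1 : (Q.card : ℝ) ≤ (Q.card : ℝ) ^ 2 := by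
    have : Q.card ≤ Q.card ^ 2 := Nat.le_self_pow (by norm_num) _
    exact_mod_cast this
  -- first moment
  have hs1 : (N : ℝ) * M - Q.card ≤ ∑ n ∈ I, om n := by
    calc (N : ℝ) * M - Q.card = ∑ p ∈ Q, ((N : ℝ) / p - 1) := by
          rw [Finset.sum_sub_distrib, hM, Finset.mul_sum]
          simp [div_eq_mul_inv]
      _ ≤ ∑ p ∈ Q, ∑ n ∈ I, f p n := by
          refine Finset.sum_le_sum fun p hp => ?_
          rw [hf]
          exact (cnt_bd a p N (hQ p hp).pos).1
      _ = ∑ n ∈ I, om n := Finset.sum_comm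
  -- second moment
  have hs2 : ∑ n ∈ I, om n ^ 2 ≤ N * M ^ 2 + (Q.card : ℝ) ^ 2 + N * M + Q.card := by
    have hA : ∑ n ∈ I, om n ^ 2 = ∑ p ∈ Q, ∑ q ∈ Q, ∑ n ∈ I, f p n * f q n := by
      calc ∑ n ∈ I, om n ^ 2 = ∑ n ∈ I, ∑ p ∈ Q, ∑ q ∈ Q, f p n * f q n := by
            refine Finset.sum_congr rfl fun n _ => ?_
            rw [sq, Finset.sum_mul_sum]
        _ = ∑ p ∈ Q, ∑ n ∈ I, ∑ q ∈ Q, f p n * f q n := Finset.sum_comm
        _ = _ := Finset.sum_congr rfl fun p _ => Finset.sum_comm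
    have hB : ∀ p ∈ Q, ∀ q ∈ Q, ∑ n ∈ I, f p n * f q n ≤
        ((N : ℝ) / p * (1 / q) + 1) + (if p = q then ((N : ℝ) / p + 1) else 0) := by
      intro p hp q hq
      have hp0 : (0 : ℝ) < p := by exact_mod_cast (hQ p hp).pos
      have hq0 : (0 : ℝ) < q := by exact_mod_cast (hQ q hq).pos
      by_cases hpq : p = q
      · subst hpq
        rw [if_pos rfl]
        have h1 : ∑ n ∈ I, f p n * f p n = ∑ n ∈ I, f p n := by
          refine Finset.sum_congr rfl fun n _ => ?_
          simp only [f]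
          split_ifs <;> simp
        rw [h1, hf]
        have h2 := (cnt_bd a p N (hQ p hp).pos).2
        have h3 : (0 : ℝ) ≤ (N : ℝ) / p * (1 / p) := by positivity
        linarith
      · rw [if_neg hpq, add_zero]
        have hcop : Nat.Coprime p q := (Nat.coprime_primes (hQ p hp) (hQ q hq)).mpr hpq
        have h1 : ∑ n ∈ I, f p n * f q n = ∑ n ∈ I, f (p * q) n := by
          refine Finset.sum_congr rfl fun n _ => ?_
          simp only [f]
          by_cases h1 : p ∣ n + a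
          · by_cases h2 : q ∣ n + a
            · rw [if_pos h1, if_pos h2, if_pos (hcop.mul_dvd_of_dvd_of_dvd h1 h2), one_mul]
            · rw [if_neg h2, mul_zero, if_neg]
              exact fun h => h2 (dvd_trans (Dvd.intro_left p rfl) h)
          · rw [if_neg h1, zero_mul, if_neg]
            exact fun h => h1 (dvd_trans (Dvd.intro q rfl) h)
        rw [h1, hf]
        have h2 := (cnt_bd a (p * q) N (Nat.mul_pos (hQ p hp).pos (hQ q hq).pos)).2
        have h3 : (N : ℝ) / ((p * q : ℕ) : ℝ) = (N : ℝ) / p * (1 / q) := by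
          push_cast
          field_simp
        rw [h3] at h2
        exact h2
    rw [hA]
    calc ∑ p ∈ Q, ∑ q ∈ Q, ∑ n ∈ I, f p n * f q n
        ≤ ∑ p ∈ Q, ∑ q ∈ Q, (((N : ℝ) / p * (1 / q) + 1) +
            (if p = q then ((N : ℝ) / p + 1) else 0)) :=
          Finset.sum_le_sum fun p hp => Finset.sum_le_sum fun q hq => hB p hp q hq
      _ = ∑ p ∈ Q, (((N : ℝ) / p * M + Q.card) + ((N : ℝ) / p + 1)) := by
          refine Finset.sum_congr rfl fun p hp => ?_
          rw [Finset.sum_add_distrib, Finset.sum_add_distrib, ← Finset.mul_sum, ← hM,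
            Finset.sum_ite_eq, if_pos hp]
          simp
      _ = N * M ^ 2 + (Q.card : ℝ) ^ 2 + N * M + Q.card := by
          rw [Finset.sum_add_distrib, Finset.sum_add_distrib, Finset.sum_add_distrib,
            ← Finset.sum_mul]
          have h4 : ∑ p ∈ Q, (N : ℝ) / p = N * M := by
            rw [hM, Finset.mul_sum]
            exact Finset.sum_congr rfl fun p _ => by ring
          rw [h4]
          simp only [Finset.sum_const, nsmul_eq_mul, mul_one]
          ring
  -- variance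
  have hv : ∑ n ∈ I, (om n - M) ^ 2 ≤ 5 * N * M := by
    have h1 : ∑ n ∈ I, (om n - M) ^ 2 = ∑ n ∈ I, om n ^ 2 - 2 * M * ∑ n ∈ I, om n + N * M ^ 2 := by
      have h2 : ∀ n ∈ I, (om n - M) ^ 2 = om n ^ 2 - 2 * M * om n + M ^ 2 := fun n _ => by ring
      rw [Finset.sum_congr rfl h2, Finset.sum_add_distrib, Finset.sum_sub_distrib,
        ← Finset.mul_sum]
      simp only [Finset.sum_const, nsmul_eq_mul]
      rw [hIc]
    rw [h1]
    have h3 : 2 * M * ((N : ℝ) * M - Q.card) ≤ 2 * M * ∑ n ∈ I, om n :=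
      mul_le_mul_of_nonneg_left hs1 (by linarith)
    have h4 : M * (Q.card : ℝ) ≤ M * N := mul_le_mul_of_nonneg_left (by linarith) (by linarith)
    have h5 : (N : ℝ) ≤ N * M := by
      have : (0 : ℝ) ≤ N := Nat.cast_nonneg _
      nlinarith
    nlinarith
  -- lower bound of the variance
  have hl : (((I.filter (fun n => ∀ p ∈ Q, ¬ p ∣ n + a)).card : ℝ)) * M ^ 2 ≤
      ∑ n ∈ I, (om n - M) ^ 2 := by
    calc (((I.filter (fun n => ∀ p ∈ Q, ¬ p ∣ n + a)).card : ℝ)) * M ^ 2
        = ∑ n ∈ I.filter (fun n => ∀ p ∈ Q, ¬ p ∣ n + a), (om n - M) ^ 2 := by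
          rw [← nsmul_eq_mul, ← Finset.sum_const]
          refine Finset.sum_congr rfl fun n hn => ?_
          have h6 : om n = 0 := by
            refine Finset.sum_eq_zero fun p hp => ?_
            simp only [f]
            exact if_neg ((Finset.mem_filter.mp hn).2 p hp)
          rw [h6]
          ring
      _ ≤ _ := Finset.sum_le_sum_of_subset_of_nonneg (Finset.filter_subset _ _)
          fun _ _ _ => sq_nonneg _
  have hM0 : 0 < M := by linarith
  rw [le_div_iff₀ hM0]
  have h7 := hl.trans hv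
  have h8 : ((((I.filter (fun n => ∀ p ∈ Q, ¬ p ∣ n + a)).card : ℝ)) * M) * M ≤ 5 * N * M := by
    calc _ = (((I.filter (fun n => ∀ p ∈ Q, ¬ p ∣ n + a)).card : ℝ)) * M ^ 2 := by ring
      _ ≤ _ := h7
  exact le_of_mul_le_mul_right h8 hM0

end Pool.Agent.EXD
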