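import Pool.Agent.EXD.Defs

/-!
# EXD-Win: geometric windows

Chebyshev bounds for the number of elements of a relatively dense set `P` of primes in the windows
`(K^j, K^(j+1)]`.
-/

open Filter Topology

namespace Pool.Agent.EXD

open Pool.Agent.Helper50.FS

private theorem upTo_le_pi (P : Set ℕ) (hP : ∀ p ∈ P, p.Prime) (x : ℕ) :
    (upTo P x).card ≤ Nat.primeCounting x := by
  classical
  rw [Nat.primeCounting, Nat.primeCounting', Nat.count_eq_card_filter_range]
  refine Finset.card_le_card ?_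
  intro q hq
  unfold upTo at hq
  rw [Finset.mem_filter, Finset.mem_Icc] at hq
  rw [Finset.mem_filter, Finset.mem_range]
  exact ⟨by omega, hP q hq.2⟩

private theorem upper (P : Set ℕ) (hP : ∀ p ∈ P, p.Prime) :
    ∀ᶠ x : ℕ in atTop, ((upTo P x).card : ℝ) ≤ 2 * x / Real.log x := by
  have hlog : Real.log 4 < 2 := by
    have h4 : (4 : ℝ) = 2 ^ 2 := by norm_num
    rw [h4, Real.log_pow]
    have := Real.log_two_lt_d9
    push_cast
    linarith
  have h1 := Chebyshev.eventually_primeCounting_le (ε := 2 - Real.log 4) (by linarith)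
  have h2 := tendsto_natCast_atTop_atTop (R := ℝ) |>.eventually h1
  filter_upwards [h2] with x hx
  rw [Nat.floor_natCast] at hx
  have h3 : ((upTo P x).card : ℝ) ≤ (Nat.primeCounting x : ℝ) := by
    exact_mod_cast upTo_le_pi P hP x
  have h4 : (Real.log 4 + (2 - Real.log 4)) = 2 := by ring
  rw [h4] at hx
  linarith

private theorem lower (P : Set ℕ) (hP : RelDense P) :
    ∃ c0 : ℝ, 0 < c0 ∧ ∀ᶠ x : ℕ in atTop, c0 * x / Real.log x ≤ ((upTo P x).card : ℝ) := by
  obtain ⟨_, c, hc, h⟩ := hP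
  refine ⟨c / 2, by positivity, ?_⟩
  have h1 : ∀ᶠ x : ℝ in atTop, Real.log x ≤ (1 / 20) * x := by
    have := Real.isLittleO_log_id_atTop.bound (c := 1 / 20) (by norm_num)
    filter_upwards [this, eventually_ge_atTop 1] with x hx hx1
    rw [Real.norm_of_nonneg (Real.log_nonneg hx1), id, Real.norm_of_nonneg (by linarith)] at hx
    exact hx
  have h2 := (tendsto_atTop_add_const_right atTop (1 : ℝ)
    (tendsto_natCast_atTop_atTop (R := ℝ))).eventually h1
  filter_upwards [h, h2, eventually_ge_atTop 2] with x hx hx2 hx3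
  have hxr : (2 : ℝ) ≤ x := by exact_mod_cast hx3
  have hl : 0 < Real.log x := Real.log_pos (by linarith)
  have h3 := Chebyshev.pi_ge x
  have h4 : (1 / 2 : ℝ) * x ≤ x * Real.log 2 - Real.log (x + 1) := by
    have := Real.log_two_gt_d9
    have h5 : (x : ℝ) * 0.6931471803 ≤ x * Real.log 2 := by
      apply mul_le_mul_of_nonneg_left this.le (by linarith)
    linarith
  have h6 : (1 / 2 : ℝ) * x / Real.log x ≤ Nat.primeCounting x := by
    refine le_trans ?_ h3
    gcongr
  calc c / 2 * x / Real.log x = c * ((1 / 2 : ℝ) * x / Real.log x) := by ring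
    _ ≤ c * Nat.primeCounting x := by gcongr
    _ ≤ _ := hx

private theorem card_blk (P : Set ℕ) (K j : ℕ) (hK : 1 ≤ K) :
    (upTo P (K ^ (j + 1))).card = (upTo P (K ^ j)).card + (blk P K j).card := by
  classical
  have h1 : K ^ j ≤ K ^ (j + 1) := Nat.pow_le_pow_right hK (by omega)
  have hpos : 1 ≤ K ^ j := Nat.one_le_pow _ _ hK
  unfold upTo blk
  rw [← Finset.card_union_of_disjoint]
  · congr 1
    ext q
    simp only [Finset.mem_filter, Finset.mem_union, Finset.mem_Icc, Finset.mem_Ioc]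
    constructor
    · rintro ⟨⟨h2, h3⟩, h4⟩
      by_cases h5 : q ≤ K ^ j
      · exact Or.inl ⟨⟨h2, h5⟩, h4⟩
      · exact Or.inr ⟨⟨by omega, h3⟩, h4⟩
    · rintro (⟨⟨h2, h3⟩, h4⟩ | ⟨⟨h2, h3⟩, h4⟩)
      · exact ⟨⟨h2, by omega⟩, h4⟩
      · exact ⟨⟨by omega, h3⟩, h4⟩
  · rw [Finset.disjoint_left]
    intro q hq hq'
    rw [Finset.mem_filter, Finset.mem_Icc] at hq
    rw [Finset.mem_filter, Finset.mem_Ioc] at hq'
    omega

theorem win (P : Set ℕ) (hP : RelDense P) :
    ∃ (K : ℕ) (c C : ℝ), 2 ≤ K ∧ 0 < c ∧ 0 < C ∧ ∀ᶠ j : ℕ in atTop,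
      c * (K : ℝ) ^ j / j ≤ ((blk P K j).card : ℝ) ∧
      ((blk P K j).card : ℝ) ≤ C * (K : ℝ) ^ j / j ∧
      dep P K j ≤ 2 * (blk P K j).card := by
  obtain ⟨c0, hc0, hlow⟩ := lower P hP
  have hup := upper P hP.1
  obtain ⟨K0, hK0⟩ := exists_nat_ge (8 / c0)
  set K := K0 + 2 with hKdef
  have hK2 : 2 ≤ K := by omega
  have hKr : (2 : ℝ) ≤ K := by exact_mod_cast hK2
  have hKc : 8 ≤ c0 * K := by
    rw [div_le_iff₀ hc0] at hK0
    have : (K : ℝ) = K0 + 2 := by rw [hKdef]; push_cast; ring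
    rw [this]
    nlinarith
  have hlK : 0 < Real.log K := Real.log_pos (by linarith)
  have hpow : Tendsto (fun j : ℕ => K ^ j) atTop atTop :=
    tendsto_pow_atTop_atTop_of_one_lt (by omega)
  refine ⟨K, c0 * K / (4 * Real.log K), 2 * K / Real.log K, hK2, by positivity, by positivity, ?_⟩
  have hpow1 : Tendsto (fun j : ℕ => K ^ (j + 1)) atTop atTop :=
    hpow.comp (tendsto_add_atTop_nat 1)
  filter_upwards [hpow.eventually hup, hpow1.eventually hup, hpow1.eventually hlow,
    eventually_ge_atTop 1] with j h1 h2 h3 hj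
  have hjr : (1 : ℝ) ≤ j := by exact_mod_cast hj
  have hcard := card_blk P K j (by omega)
  have hcr : ((upTo P (K ^ (j + 1))).card : ℝ) = (upTo P (K ^ j)).card + (blk P K j).card := by
    exact_mod_cast hcard
  push_cast at h1 h2 h3
  rw [Real.log_pow] at h1 h2 h3
  push_cast at h1 h2 h3
  have hKj : (0 : ℝ) < (K : ℝ) ^ j := by positivity
  -- bounds in terms of `Q = K^j / (j log K)`
  set Q : ℝ := (K : ℝ) ^ j / (j * Real.log K) with hQ
  have hQ0 : 0 < Q := by positivity
  have h1' : ((upTo P (K ^ j)).card : ℝ) ≤ 2 * Q := by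
    rw [hQ]
    calc _ ≤ 2 * (K : ℝ) ^ j / (j * Real.log K) := h1
      _ = _ := by ring
  have h2' : ((upTo P (K ^ (j + 1))).card : ℝ) ≤ 2 * K * Q := by
    refine h2.trans ?_
    rw [hQ]
    calc 2 * (K : ℝ) ^ (j + 1) / ((j + 1) * Real.log K)
        ≤ 2 * (K : ℝ) ^ (j + 1) / (j * Real.log K) := by
          gcongr
          linarith
      _ = 2 * K * ((K : ℝ) ^ j / (j * Real.log K)) := by
          rw [pow_succ]
          ring
  have h3' : c0 * K * Q / 2 ≤ ((upTo P (K ^ (j + 1))).card : ℝ) := by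
    refine le_trans ?_ h3
    rw [hQ]
    calc c0 * K * ((K : ℝ) ^ j / (j * Real.log K)) / 2
        = c0 * (K : ℝ) ^ (j + 1) / ((2 * j) * Real.log K) := by
          rw [pow_succ]
          field_simp
      _ ≤ c0 * (K : ℝ) ^ (j + 1) / ((j + 1) * Real.log K) := by
          gcongr
          linarith
  have h4 : 2 * ((upTo P (K ^ j)).card : ℝ) ≤ ((upTo P (K ^ (j + 1))).card : ℝ) := by
    have : 8 * Q ≤ c0 * K * Q := mul_le_mul_of_nonneg_right hKc hQ0.le
    linarith
  have h5 : ((upTo P (K ^ (j + 1))).card : ℝ) ≤ 2 * (blk P K j).card := by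
    linarith
  refine ⟨?_, ?_, ?_⟩
  · calc c0 * K / (4 * Real.log K) * (K : ℝ) ^ j / j = c0 * K * Q / 2 / 2 := by
          rw [hQ]
          field_simp
          ring
      _ ≤ ((upTo P (K ^ (j + 1))).card : ℝ) / 2 := by gcongr
      _ ≤ _ := by linarith
  · calc ((blk P K j).card : ℝ) ≤ ((upTo P (K ^ (j + 1))).card : ℝ) := by
          rw [hcr]
          have : (0 : ℝ) ≤ ((upTo P (K ^ j)).card : ℝ) := by positivity
          linarith
      _ ≤ 2 * K * Q := h2'
      _ = _ := by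
          rw [hQ]
          field_simp
  · unfold dep
    exact_mod_cast h5

end Pool.Agent.EXD
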